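import Pool.Agent.H740R2.Lim.Defs
import Pool.Agent.H279R2.Tur.Final

/-! T6: boundedness, from helper279's bound `Pool.Agent.H279R2.Tur.bound_one`. -/

set_option autoImplicit false

open Finset

namespace Pool.Agent.H740R2.Lim

theorem bdd (a : ℕ) (ha : 1 ≤ a) :
    ∃ M : ℝ, 0 ≤ M ∧ ∀ k : ℕ, Sys a k (M / ((k + a).choose a : ℝ)) := by
  refine ⟨Pool.Agent.H279R2.Tur.muR a, Pool.Agent.H279R2.Tur.muR_nonneg a, fun k n => ?_⟩
  obtain ⟨F, hF, hc⟩ := Pool.Agent.H279R2.Tur.bound_one n (k + a) k (by omega) univ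
  refine ⟨F, fun Z hZ => (hF.1 Z hZ).2, fun Y hY => hF.2 Y (subset_univ _) hY, ?_⟩
  have h1 : (k + a).choose k = (k + a).choose a := by
    rw [← Nat.choose_symm (show k ≤ k + a by omega)]
    congr 1; omega
  have h2 : k + a - k = a := by omega
  rw [h1, h2, Finset.card_univ, Fintype.card_fin] at hc
  have hpos : (0 : ℝ) < ((k + a).choose a : ℝ) := by
    exact_mod_cast Nat.choose_pos (by omega)
  rw [div_mul_eq_mul_div, le_div_iff₀ hpos]
  exact hc

end Pool.Agent.H740R2.Lim
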