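import Pool.Agent.H369R2.TD.TwoDefs

/-!
# The limits `lim_t C(t+a,a) t(t+a,t)` exist (helper740)

`Sys a k δ`: on every `Fin n` there is a family of `k`-sets of relative size `≤ δ` such that every
`(k+a)`-set contains a member (so `t(k+a,k) ≤ δ`).
`Rnd a n d α Φ`: a random family of `d`-subsets of `Fin n` such that each `d`-set belongs to it with
probability at most `α` and each `(d+a)`-set contains no member with probability at most `Φ`.
(General-`a` versions of the definitions of `Pool.Agent.H369R2.TD`.)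
-/

set_option autoImplicit false

open Finset

namespace Pool.Agent.H740R2.Lim

def Sys (a k : ℕ) (δ : ℝ) : Prop :=
  ∀ n : ℕ, ∃ T : Finset (Finset (Fin n)), (∀ Z ∈ T, Z.card = k) ∧
    (∀ Y : Finset (Fin n), Y.card = k + a → ∃ Z ∈ T, Z ⊆ Y) ∧ (T.card : ℝ) ≤ δ * (n.choose k : ℝ)

open Classical in
def Rnd (a n d : ℕ) (α Φ : ℝ) : Prop :=
  ∃ (Ω : Type) (_ : Fintype Ω) (_ : Nonempty Ω) (A : Ω → Finset (Finset (Fin n))),
    (∀ ω, ∀ Z ∈ A ω, Z.card = d) ∧
    (∀ Z : Finset (Fin n), Z.card = d →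
      ((univ.filter fun ω => Z ∈ A ω).card : ℝ) ≤ α * (Fintype.card Ω : ℝ)) ∧
    (∀ Y : Finset (Fin n), Y.card = d + a →
      ((univ.filter fun ω => ¬ ∃ Z ∈ A ω, Z ⊆ Y).card : ℝ) ≤ Φ * (Fintype.card Ω : ℝ))

/-- the density of the code of vectors in `F_q^(w+a-1)` -/
noncomputable def detA (a w q : ℕ) (δ : ℕ → ℝ) : ℝ :=
  ∑ m ∈ range w, (w.choose m : ℝ) * ((q : ℝ) - 1) ^ (w - m - 1) / (q : ℝ) ^ (w + a - 1) * δ m

/-- the failure probability of the code -/
noncomputable def detF (a w q : ℕ) : ℝ :=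
  ∑ j ∈ range a, ((w + a).choose j : ℝ) * ((q : ℝ) - 1) ^ (w + a - j - 1) / (q : ℝ) ^ (w + a - 1)

/-- binomial weights -/
noncomputable def bin (n j : ℕ) (p : ℝ) : ℝ := (n.choose j : ℝ) * p ^ j * (1 - p) ^ (n - j)

/-- `k`-covering families of `t`-sets -/
def IsCovering (n k t : ℕ) (F : Finset (Finset (Fin n))) : Prop :=
  (∀ Z ∈ F, Z.card = t) ∧ ∀ Y : Finset (Fin n), Y.card = k → ∃ Z ∈ F, Z ⊆ Y

/-- The Turán number -/
noncomputable def T (n k t : ℕ) : ℕ :=
  sInf {m : ℕ | ∃ F : Finset (Finset (Fin n)), IsCovering n k t F ∧ F.card = m}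

end Pool.Agent.H740R2.Lim
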