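import Mathlib
import Pool.Agent.H740R2.Lim.Defs

/-! T5: binomial identities and Chebyshev -/

set_option autoImplicit false

open Finset

namespace Pool.Agent.H740R2.Lim

private theorem pow_id {q : ℝ} (hq : 1 < q) {n j : ℕ} (hj : j < n) :
    q / (q - 1) * ((1 / q) ^ j * (1 - 1 / q) ^ (n - j)) = (q - 1) ^ (n - j - 1) / q ^ (n - 1) := by
  have h0 : q ≠ 0 := by positivity
  have h1 : q - 1 ≠ 0 := by linarith
  have e1 : 1 - 1 / q = (q - 1) / q := by field_simp
  obtain ⟨k, rfl⟩ : ∃ k, n = j + k + 1 := ⟨n - j - 1, by omega⟩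
  have e2 : j + k + 1 - j = k + 1 := by omega
  have e3 : k + 1 - 1 = k := by omega
  have e4 : j + k + 1 - 1 = j + k := by omega
  rw [e1, e2, e3, e4, div_pow, div_pow, one_pow, pow_succ, pow_succ, pow_add]
  field_simp

theorem choose_detA {a w q : ℕ} (ha : 1 ≤ a) (hq : 2 ≤ q) (δ : ℕ → ℝ) :
    ((w + a).choose a : ℝ) * detA a w q δ =
      (q : ℝ) / ((q : ℝ) - 1) * ∑ m ∈ range w, bin (w + a) (m + a) (1 / q) *
        (((m + a).choose a : ℝ) * δ m) := by
  have hq1 : (1 : ℝ) < q := by exact_mod_cast hq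
  unfold detA
  rw [mul_sum, mul_sum]
  refine sum_congr rfl fun m hm => ?_
  have hmw : m < w := mem_range.mp hm
  have h1 := pow_id hq1 (show m + a < w + a by omega)
  have h2 : w + a - (m + a) = w - m := by omega
  have h3 : ((w + a).choose (m + a) : ℝ) * ((m + a).choose a : ℝ) =
      ((w + a).choose a : ℝ) * (w.choose m : ℝ) := by
    have := Nat.choose_mul (n := w + a) (k := m + a) (s := a) (by omega)
    rw [Nat.add_sub_cancel, Nat.add_sub_cancel] at this
    exact_mod_cast this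
  rw [h2] at h1
  unfold bin
  rw [h2]
  calc ((w + a).choose a : ℝ) * ((w.choose m : ℝ) * ((q : ℝ) - 1) ^ (w - m - 1) / (q : ℝ) ^ (w + a - 1) * δ m)
      = (((w + a).choose a : ℝ) * (w.choose m : ℝ)) *
        (((q : ℝ) - 1) ^ (w - m - 1) / (q : ℝ) ^ (w + a - 1)) * δ m := by ring
    _ = (((w + a).choose (m + a) : ℝ) * ((m + a).choose a : ℝ)) *
        ((q : ℝ) / ((q : ℝ) - 1) * ((1 / (q : ℝ)) ^ (m + a) * (1 - 1 / (q : ℝ)) ^ (w - m))) * δ m := by
        rw [h3, h1]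
    _ = _ := by ring

theorem detF_eq {a w q : ℕ} (hq : 2 ≤ q) (hw : 1 ≤ w) :
    detF a w q = (q : ℝ) / ((q : ℝ) - 1) * ∑ j ∈ range a, bin (w + a) j (1 / q) := by
  have hq1 : (1 : ℝ) < q := by exact_mod_cast hq
  unfold detF
  rw [mul_sum]
  refine sum_congr rfl fun j hj => ?_
  have hja : j < a := mem_range.mp hj
  have h1 := pow_id hq1 (show j < w + a by omega)
  unfold bin
  calc ((w + a).choose j : ℝ) * ((q : ℝ) - 1) ^ (w + a - j - 1) / (q : ℝ) ^ (w + a - 1)
      = ((w + a).choose j : ℝ) * (((q : ℝ) - 1) ^ (w + a - j - 1) / (q : ℝ) ^ (w + a - 1)) := by ring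
    _ = ((w + a).choose j : ℝ) *
        ((q : ℝ) / ((q : ℝ) - 1) * ((1 / (q : ℝ)) ^ j * (1 - 1 / (q : ℝ)) ^ (w + a - j))) := by rw [h1]
    _ = _ := by ring

theorem bin_nonneg {n j : ℕ} {p : ℝ} (h0 : 0 ≤ p) (h1 : p ≤ 1) : 0 ≤ bin n j p := by
  unfold bin
  have : 0 ≤ 1 - p := by linarith
  positivity

theorem bin_sum (n : ℕ) (p : ℝ) : ∑ j ∈ range (n + 1), bin n j p = 1 := by
  have h := add_pow p (1 - p) n
  rw [add_sub_cancel, one_pow] at h
  rw [h]
  refine sum_congr rfl fun j _ => ?_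
  unfold bin
  ring

private theorem bin_var (n : ℕ) (p : ℝ) :
    ∑ j ∈ range (n + 1), bin n j p * ((j : ℝ) - n * p) ^ 2 = n * p * (1 - p) := by
  have h := congrArg (Polynomial.eval p) (bernsteinPolynomial.variance ℝ n)
  rw [Polynomial.eval_finsetSum] at h
  simp only [Polynomial.eval_mul, Polynomial.eval_pow, Polynomial.eval_sub,
    Polynomial.eval_X, Polynomial.eval_natCast, Polynomial.eval_one, bernsteinPolynomial,
    nsmul_eq_mul] at h
  rw [← h]
  refine sum_congr rfl fun j _ => ?_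
  unfold bin
  ring

theorem cheb {n : ℕ} {p s : ℝ} (h0 : 0 ≤ p) (h1 : p ≤ 1) (hs : 0 < s) :
    ∑ j ∈ (range (n + 1)).filter (fun j : ℕ => s ≤ |(j : ℝ) - n * p|), bin n j p ≤
      n * p / s ^ 2 := by
  have h2 : ∑ j ∈ (range (n + 1)).filter (fun j : ℕ => s ≤ |(j : ℝ) - n * p|), bin n j p ≤
      ∑ j ∈ (range (n + 1)).filter (fun j : ℕ => s ≤ |(j : ℝ) - n * p|),
        bin n j p * ((j : ℝ) - n * p) ^ 2 / s ^ 2 := by
    refine sum_le_sum fun j hj => ?_
    have h3 := (mem_filter.mp hj).2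
    have h4 : s ^ 2 ≤ ((j : ℝ) - n * p) ^ 2 := by
      rw [← sq_abs ((j : ℝ) - n * p)]
      gcongr
    rw [le_div_iff₀ (by positivity)]
    exact mul_le_mul_of_nonneg_left h4 (bin_nonneg h0 h1)
  have h3 : ∑ j ∈ (range (n + 1)).filter (fun j : ℕ => s ≤ |(j : ℝ) - n * p|),
        bin n j p * ((j : ℝ) - n * p) ^ 2 / s ^ 2 ≤
      ∑ j ∈ range (n + 1), bin n j p * ((j : ℝ) - n * p) ^ 2 / s ^ 2 := by
    refine sum_le_sum_of_subset_of_nonneg (filter_subset _ _) fun j _ _ => ?_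
    have := bin_nonneg (n := n) (j := j) h0 h1
    positivity
  rw [← sum_div (range (n + 1)), bin_var] at h3
  refine (h2.trans h3).trans ?_
  have h5 : (0 : ℝ) ≤ n * p := by positivity
  refine div_le_div_of_nonneg_right ?_ (by positivity)
  nlinarith [mul_nonneg h5 h0]

theorem window {a w k₀ k₁ : ℕ} {p s L M : ℝ} {lam : ℕ → ℝ} (h0 : 0 ≤ p) (h1 : p ≤ 1) (hs : 0 < s)
    (hL : 0 ≤ L) (hM : 0 ≤ M) (hlM : ∀ m, lam m ≤ M)
    (hlL : ∀ m, k₀ ≤ m → m ≤ k₁ → lam m ≤ L)
    (hlo : (k₀ : ℝ) + a + s ≤ ((w + a : ℕ) : ℝ) * p)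
    (hhi : ((w + a : ℕ) : ℝ) * p + s ≤ (k₁ : ℝ) + a) :
    ∑ m ∈ range w, bin (w + a) (m + a) p * lam m ≤
      L + M * (((w + a : ℕ) : ℝ) * p / s ^ 2) := by
  have hterm : ∀ m ∈ range w, bin (w + a) (m + a) p * lam m ≤ L * bin (w + a) (m + a) p +
      M * (if s ≤ |((m + a : ℕ) : ℝ) - ((w + a : ℕ) : ℝ) * p| then bin (w + a) (m + a) p else 0) := by
    intro m _
    have hb := bin_nonneg (n := w + a) (j := m + a) h0 h1
    split_ifs with h
    · have := mul_le_mul_of_nonneg_left (hlM m) hb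
      nlinarith [mul_nonneg hL hb]
    · rw [not_le, abs_lt] at h
      have e1 : (k₀ : ℝ) < m := by
        have := h.1; push_cast at this hlo; linarith
      have e2 : (m : ℝ) < k₁ := by
        have := h.2; push_cast at this hhi; linarith
      have e3 : k₀ ≤ m := by exact_mod_cast e1.le
      have e4 : m ≤ k₁ := by exact_mod_cast e2.le
      have := mul_le_mul_of_nonneg_left (hlL m e3 e4) hb
      nlinarith
  refine (sum_le_sum hterm).trans ?_
  rw [sum_add_distrib, ← mul_sum, ← mul_sum]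
  have hinj : Set.InjOn (fun m : ℕ => m + a) (range w : Set ℕ) := fun x _ y _ h => by
    simpa using h
  have hS1 : ∑ m ∈ range w, bin (w + a) (m + a) p ≤ 1 := by
    rw [← bin_sum (w + a) p, ← sum_image (f := fun j => bin (w + a) j p) hinj]
    refine sum_le_sum_of_subset_of_nonneg ?_ fun j _ _ => bin_nonneg h0 h1
    intro j hj
    obtain ⟨m, hm, rfl⟩ := mem_image.mp hj
    have := mem_range.mp hm
    exact mem_range.mpr (by omega)
  have hS2 : ∑ m ∈ range w, (if s ≤ |((m + a : ℕ) : ℝ) - ((w + a : ℕ) : ℝ) * p| then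
      bin (w + a) (m + a) p else 0) ≤ ((w + a : ℕ) : ℝ) * p / s ^ 2 := by
    refine le_trans ?_ (cheb (n := w + a) h0 h1 hs)
    rw [← sum_image (f := fun j : ℕ => if s ≤ |(j : ℝ) - ((w + a : ℕ) : ℝ) * p| then
      bin (w + a) j p else 0) hinj, sum_filter]
    refine sum_le_sum_of_subset_of_nonneg ?_ fun j _ _ => ?_
    · intro j hj
      obtain ⟨m, hm, rfl⟩ := mem_image.mp hj
      have := mem_range.mp hm
      exact mem_range.mpr (by omega)
    · split_ifs
      · exact bin_nonneg h0 h1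
      · exact le_rfl
  have e1 := mul_le_mul_of_nonneg_left hS1 hL
  have e2 := mul_le_mul_of_nonneg_left hS2 hM
  linarith

theorem lower_tail {n a : ℕ} {p s : ℝ} (h0 : 0 ≤ p) (h1 : p ≤ 1) (hs : 0 < s)
    (hlo : (a : ℝ) + s ≤ n * p) :
    ∑ j ∈ range a, bin n j p ≤ n * p / s ^ 2 := by
  refine le_trans ?_ (cheb (n := n) h0 h1 hs)
  have h2 : ∑ j ∈ range a, bin n j p = ∑ j ∈ (range a).filter (fun j => j ≤ n), bin n j p := by
    rw [sum_filter]
    refine sum_congr rfl fun j _ => ?_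
    split_ifs with h
    · rfl
    · unfold bin
      rw [Nat.choose_eq_zero_of_lt (by omega)]
      simp
  rw [h2]
  refine sum_le_sum_of_subset_of_nonneg ?_ fun j _ _ => bin_nonneg h0 h1
  intro j hj
  rw [mem_filter, mem_range] at hj
  rw [mem_filter, mem_range]
  refine ⟨by omega, ?_⟩
  have h3 : (j : ℝ) ≤ a := by exact_mod_cast hj.1.le
  rw [abs_of_nonpos (by linarith)]
  linarith

end Pool.Agent.H740R2.Lim
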