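import Pool.Agent.H740R2.Lim.Transfer
import Pool.Agent.H120R2.CliqueDefs

/-! Passing from Turán systems to Turán densities (helper740) -/

set_option autoImplicit false

open Finset Filter Topology

namespace Pool.Agent.H740R2.Lim

open Pool.Agent.H120R2.Clique

/-- an extremal `K_m^k`-free family -/
theorem exists_extremal {n k m : ℕ} (hkm : k ≤ m) : ∃ G : Finset (Finset (Fin n)),
    (∀ A ∈ G, A.card = k) ∧ ¬ HasClique G k m ∧ G.card = ex n k m := by
  classical
  have hne : ((((univ : Finset (Fin n)).powersetCard k).powerset).filter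
      (fun G => ¬ HasClique G k m)).Nonempty := by
    refine ⟨∅, ?_⟩
    rw [mem_filter, mem_powerset]
    refine ⟨empty_subset _, ?_⟩
    rintro ⟨A, hA, hAs⟩
    obtain ⟨B, hB, hBc⟩ := Finset.exists_subset_card_eq (show k ≤ A.card by omega)
    have := hAs (mem_powersetCard.2 ⟨hB, hBc⟩)
    simp at this
  obtain ⟨G, hG, hGs⟩ := Finset.exists_mem_eq_sup _ hne Finset.card
  rw [mem_filter, mem_powerset] at hG
  refine ⟨G, fun A hA => (mem_powersetCard.1 (hG.1 hA)).2, hG.2, ?_⟩
  unfold ex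
  exact hGs.symm

theorem ex_le_choose {n k m : ℕ} : ex n k m ≤ n.choose k := by
  classical
  unfold ex
  apply Finset.sup_le
  intro G hG
  rw [mem_filter, mem_powerset] at hG
  have := Finset.card_le_card hG.1
  simpa using this

theorem density_le_ratio {k m n : ℕ} (hkn : k ≤ n) :
    turanDensity k m ≤ (ex n k m : ℝ) / (n.choose k : ℝ) := by
  obtain ⟨i, rfl⟩ : ∃ i, n = i + k := ⟨n - k, by omega⟩
  have h1 : Tendsto (fun i : ℕ => (ex (i + k) k m : ℝ) / ((i + k).choose k : ℝ)) atTop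
      (𝓝 (turanDensity k m)) := (ratio_tendsto k m).comp (tendsto_add_atTop_nat k)
  exact (ratio_antitone k m).le_of_tendsto h1 i

theorem sys_density (a k : ℕ) : Sys a k (1 - turanDensity k (k + a)) := by
  classical
  intro n
  obtain ⟨G, hG1, hG2, hG3⟩ := exists_extremal (n := n) (k := k) (m := k + a) (by omega)
  refine ⟨(univ.powersetCard k) \ G, ?_, ?_, ?_⟩
  · intro Z hZ
    exact (mem_powersetCard.1 (mem_sdiff.1 hZ).1).2
  · intro Y hY
    by_contra hcon
    push Not at hcon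
    apply hG2
    refine ⟨Y, hY, fun B hB => ?_⟩
    rw [mem_powersetCard] at hB
    by_contra hBG
    exact hcon B (mem_sdiff.2 ⟨mem_powersetCard.2 ⟨subset_univ _, hB.2⟩, hBG⟩) hB.1
  · have hsub : G ⊆ (univ : Finset (Fin n)).powersetCard k := fun A hA =>
      mem_powersetCard.2 ⟨subset_univ _, hG1 A hA⟩
    have h1 := Finset.card_sdiff_add_card_eq_card hsub
    rw [card_powersetCard, Finset.card_univ, Fintype.card_fin, hG3] at h1
    have h2 : ((((univ : Finset (Fin n)).powersetCard k) \ G).card : ℝ) + (ex n k (k + a) : ℝ) =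
        (n.choose k : ℝ) := by exact_mod_cast h1
    by_cases hkn : k ≤ n
    · have h3 := density_le_ratio (m := k + a) hkn
      have h4 : (0 : ℝ) < (n.choose k : ℝ) := by exact_mod_cast Nat.choose_pos hkn
      rw [le_div_iff₀ h4] at h3
      linarith
    · have h5 : n.choose k = 0 := Nat.choose_eq_zero_of_lt (by omega)
      rw [h5] at h2 ⊢
      have h6 : (0 : ℝ) ≤ (ex n k (k + a) : ℝ) := Nat.cast_nonneg _
      push_cast at h2 ⊢
      linarith

theorem density_opt (a k : ℕ) (δ : ℝ) (h : Sys a k δ) : 1 - turanDensity k (k + a) ≤ δ := by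
  have h1 : 1 - δ ≤ turanDensity k (k + a) := by
    apply le_density
    intro n
    obtain ⟨T, hT1, hT2, hT3⟩ := h n
    have h2 := ex_ge_of_cover (k := k) (m := k + a) T (fun A hA => by
      obtain ⟨Z, hZ, hZA⟩ := hT2 A hA
      exact ⟨Z, hZ, hT1 Z hZ, hZA⟩)
    have h3 : (n.choose k : ℝ) ≤ ex n k (k + a) + T.card := by exact_mod_cast h2
    linarith
  linarith

theorem one_le_lam {a k : ℕ} {δ : ℝ} (h : Sys a k δ) : 1 ≤ ((k + a).choose a : ℝ) * δ := by
  obtain ⟨T, hT1, hT2, hT3⟩ := h (k + a)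
  obtain ⟨Z, hZ, _⟩ := hT2 univ (by simp)
  have h1 : 1 ≤ T.card := Finset.card_pos.2 ⟨Z, hZ⟩
  have h2 : (1 : ℝ) ≤ T.card := by exact_mod_cast h1
  have h3 : (k + a).choose k = (k + a).choose a := by
    rw [← Nat.choose_symm (by omega : k ≤ k + a)]
    congr 1; omega
  rw [h3] at hT3
  linarith [mul_comm δ ((k + a).choose a : ℝ)]

theorem poi_summable {y : ℝ} (hy : 0 ≤ y) (a : ℕ) {M : ℝ} {lam : ℕ → ℝ} (h0 : ∀ m, 0 ≤ lam m)
    (hM : ∀ m, lam m ≤ M) : Summable fun m => poi y (m + a) * lam m := by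
  have h1 : Summable fun m : ℕ => poi y m := by
    have := (Real.summable_pow_div_factorial y).mul_left (Real.exp (-y))
    refine this.congr fun m => ?_
    unfold poi
    ring
  have h2 : Summable fun m : ℕ => poi y (m + a) * M := ((summable_nat_add_iff a).2 h1).mul_right M
  refine Summable.of_nonneg_of_le (fun m => mul_nonneg (poi_nonneg hy _) (h0 m)) (fun m => ?_) h2
  exact mul_le_mul_of_nonneg_left (hM m) (poi_nonneg hy _)

/-- the main theorem in terms of Turán densities -/
theorem main_density {a : ℕ} (ha : 1 ≤ a) : ∃ μ : ℝ, 1 ≤ μ ∧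
    Tendsto (fun k : ℕ => ((k + a).choose a : ℝ) * (1 - turanDensity k (k + a))) atTop (𝓝 μ) ∧
    ∀ y : ℝ, 0 < y →
      Summable (fun m => poi y (m + a) * (((m + a).choose a : ℝ) * (1 - turanDensity m (m + a)))) ∧
      (1 - (∑ j ∈ range a, poi y j) ^ ((1 : ℝ) / (a + 1))) ^ (a + 1) * μ ≤
        ∑' m, poi y (m + a) * (((m + a).choose a : ℝ) * (1 - turanDensity m (m + a))) := by
  have hτ := sys_density a
  have hopt := density_opt a
  have hlam : ∀ k, 1 ≤ ((k + a).choose a : ℝ) * (1 - turanDensity k (k + a)) :=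
    fun k => one_le_lam (hτ k)
  have hτ0 : ∀ k, 0 ≤ 1 - turanDensity k (k + a) := by
    intro k
    have h1 := hlam k
    by_contra hcon
    push Not at hcon
    have h2 : (0 : ℝ) ≤ ((k + a).choose a : ℝ) := Nat.cast_nonneg _
    have := mul_nonpos_of_nonneg_of_nonpos h2 hcon.le
    linarith
  obtain ⟨μ, hμ⟩ := limit_exists ha hτ0 hτ hopt
  refine ⟨μ, ge_of_tendsto' hμ hlam, hμ, fun y hy => ⟨?_, transfer ha hτ0 hτ hopt hμ hy⟩⟩
  obtain ⟨M, hM0, hM⟩ := bdd a ha
  refine poi_summable hy.le a (M := M) (fun k => (zero_le_one.trans (hlam k))) fun k => ?_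
  have hC : (0 : ℝ) < ((k + a).choose a : ℝ) := by exact_mod_cast Nat.choose_pos (by omega)
  have := hopt k _ (hM k)
  rw [le_div_iff₀ hC] at this
  linarith

end Pool.Agent.H740R2.Lim
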