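import Pool.Agent.H740R2.Lim.Defs
import Pool.Agent.H369R2.TD.Perm

/-!
# A system moved by a random permutation (task T2)
-/

set_option autoImplicit false

open Finset

namespace Pool.Agent.H740R2.Lim

theorem rnd_of_sys {a k : ℕ} {δ : ℝ} (h : Sys a k δ) (n : ℕ) : Rnd a n k δ 0 := by
  classical
  obtain ⟨T, h1, h2, h3⟩ := h n
  refine ⟨Equiv.Perm (Fin n), inferInstance, inferInstance,
    fun π => (powersetCard k univ).filter (fun Z => Z.map π.toEmbedding ∈ T), ?_, ?_, ?_⟩
  · intro π Z hZ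
    exact (mem_powersetCard.1 (mem_filter.1 hZ).1).2
  · intro Z hZ
    refine le_trans ?_ (Pool.Agent.H369R2.TD.perm_count T h1 h3 Z hZ)
    rw [Nat.cast_le]
    apply card_le_card
    intro π hπ
    rw [mem_filter] at hπ ⊢
    exact ⟨mem_univ _, (mem_filter.1 hπ.2).2⟩
  · intro Y hY
    rw [zero_mul]
    have key : ∀ s : Finset (Equiv.Perm (Fin n)), s = ∅ → (s.card : ℝ) ≤ 0 := by
      rintro s rfl
      simp
    apply key
    rw [filter_eq_empty_iff]
    intro π _
    rw [not_not]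
    obtain ⟨W, hW, hWY⟩ := h2 (Y.map π.toEmbedding) (by rw [card_map, hY])
    obtain ⟨Z, hZY, rfl⟩ := subset_map_iff.1 hWY
    refine ⟨Z, mem_filter.2 ⟨mem_powersetCard.2 ⟨subset_univ _, ?_⟩, hW⟩, hZY⟩
    have := h1 _ hW
    rwa [card_map] at this

end Pool.Agent.H740R2.Lim
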