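import Pool.Agent.H740R2.Lim.Defs
import Pool.Agent.H369R2.TD.Low

/-!
# The two-part construction by rank order (task T3)
-/

set_option autoImplicit false

open Finset

namespace Pool.Agent.H740R2.Lim

open Pool.Agent.H369R2.TD (low low_erase_low low_erase_high card_low low_subset mem_low)

theorem low_sdiff_low {n a k : ℕ} {S D : Finset (Fin n)} (hD : D ⊆ low (k + a) S)
    (hc : D.card = a) : low k (S \ D) = low (k + a) S \ D ∧
      (S \ D) \ low k (S \ D) = S \ low (k + a) S := by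
  induction a generalizing S D with
  | zero =>
    have : D = ∅ := card_eq_zero.1 hc
    subst this
    simp
  | succ a ih =>
    have hne : D.Nonempty := by rw [← card_pos]; omega
    obtain ⟨t, ht⟩ := hne
    have htl : t ∈ low (k + a + 1) S := hD ht
    obtain ⟨e1, e2⟩ := low_erase_low htl
    have hD' : D.erase t ⊆ low (k + a) (S.erase t) := by
      rw [e1]
      exact erase_subset_erase t hD
    obtain ⟨f1, f2⟩ := ih hD' (by rw [card_erase_of_mem ht]; omega)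
    have e3 : (S.erase t) \ (D.erase t) = S \ D := by
      ext x
      simp only [mem_sdiff, mem_erase]
      constructor
      · rintro ⟨⟨h1, h2⟩, h3⟩
        exact ⟨h2, fun h4 => h3 ⟨h1, h4⟩⟩
      · rintro ⟨h1, h2⟩
        exact ⟨⟨fun h => h2 (h ▸ ht), h1⟩, fun h => h2 h.2⟩
    rw [e3] at f1 f2
    rw [e1] at f1
    rw [e2] at f2
    refine ⟨?_, f2⟩
    rw [f1]
    have e4 : k + (a + 1) = k + a + 1 := by ring
    rw [e4]
    ext x
    simp only [mem_sdiff, mem_erase]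
    constructor
    · rintro ⟨⟨h1, h2⟩, h3⟩
      exact ⟨h2, fun h4 => h3 ⟨h1, h4⟩⟩
    · rintro ⟨h1, h2⟩
      exact ⟨⟨fun h => h2 (h ▸ ht), h1⟩, fun h => h2 h.2⟩

theorem low_sdiff_high {n k : ℕ} {S D : Finset (Fin n)} (hD : D ⊆ S \ low k S) :
    low k (S \ D) = low k S ∧ (S \ D) \ low k (S \ D) = (S \ low k S) \ D := by
  classical
  induction D using Finset.induction_on generalizing S with
  | empty => simp
  | insert t D htD ih =>
    have ht : t ∈ S \ low k S := hD (mem_insert_self _ _)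
    obtain ⟨e1, e2⟩ := low_erase_high ht
    rw [e1] at e2
    have hD' : D ⊆ (S.erase t) \ low k (S.erase t) := by
      rw [e1, e2]
      intro x hx
      rw [mem_erase]
      exact ⟨fun h => htD (h ▸ hx), hD (mem_insert_of_mem hx)⟩
    obtain ⟨f1, f2⟩ := ih hD'
    have e3 : (S.erase t) \ D = S \ insert t D := by
      ext x
      simp only [mem_sdiff, mem_erase, mem_insert]
      tauto
    rw [e3, e1] at f1
    rw [e3, e1, e2] at f2
    refine ⟨f1, ?_⟩
    rw [f2]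
    ext x
    simp only [mem_sdiff, mem_erase, mem_insert]
    tauto

theorem two_level {a n d₁ d₂ : ℕ} {α₁ α₂ Φ₁ : ℝ} (h₁ : Rnd a n d₁ α₁ Φ₁) (h₂ : Rnd a n d₂ α₂ 0) :
    Rnd a n (d₁ + d₂ + a) (α₁ + Φ₁ * α₂) 0 := by
  classical
  obtain ⟨Ω₁, i1, j1, A₁, c1, c2, c3⟩ := h₁
  obtain ⟨Ω₂, i2, j2, A₂, g1, g2, g3⟩ := h₂
  refine ⟨Ω₁ × Ω₂, inferInstance, inferInstance,
    fun ω => (powersetCard (d₁ + d₂ + a) univ).filter (fun X => low d₁ X ∈ A₁ ω.1 ∨
      ((¬ ∃ Z ∈ A₁ ω.1, Z ⊆ low (d₁ + a) X) ∧ X \ low (d₁ + a) X ∈ A₂ ω.2)), ?_, ?_, ?_⟩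
  · intro ω Z hZ
    exact (mem_powersetCard.1 (mem_filter.1 hZ).1).2
  · intro X hX
    have hl1 : (low d₁ X).card = d₁ := card_low (by omega)
    have hl2 : (low (d₁ + a) X).card = d₁ + a := card_low (by omega)
    have hl3 : (X \ low (d₁ + a) X).card = d₂ := by
      rw [card_sdiff_of_subset (low_subset _ _), hl2, hX]; omega
    have b1 := c2 _ hl1
    have b2 := c3 _ hl2
    have b3 := g2 _ hl3
    set P1 := univ.filter fun ω : Ω₁ => low d₁ X ∈ A₁ ω with hP1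
    set P2 := univ.filter fun ω : Ω₁ => ¬ ∃ Z ∈ A₁ ω, Z ⊆ low (d₁ + a) X with hP2
    set P3 := univ.filter fun ω : Ω₂ => X \ low (d₁ + a) X ∈ A₂ ω with hP3
    have hb1 : (P1.card : ℝ) ≤ α₁ * (Fintype.card Ω₁ : ℝ) := by convert b1
    have hb2 : (P2.card : ℝ) ≤ Φ₁ * (Fintype.card Ω₁ : ℝ) := by convert b2
    have hb3 : (P3.card : ℝ) ≤ α₂ * (Fintype.card Ω₂ : ℝ) := by convert b3
    have hsub : ∀ s : Finset (Ω₁ × Ω₂), (∀ ω ∈ s, ω ∈ (P1 ×ˢ (univ : Finset Ω₂)) ∪ (P2 ×ˢ P3)) →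
        (s.card : ℝ) ≤ (α₁ + Φ₁ * α₂) * (Fintype.card (Ω₁ × Ω₂) : ℝ) := by
      intro s hs
      have k1 : s.card ≤ P1.card * Fintype.card Ω₂ + P2.card * P3.card := by
        calc s.card ≤ ((P1 ×ˢ (univ : Finset Ω₂)) ∪ (P2 ×ˢ P3)).card := card_le_card hs
          _ ≤ (P1 ×ˢ (univ : Finset Ω₂)).card + (P2 ×ˢ P3).card := card_union_le _ _
          _ = _ := by rw [card_product, card_product, card_univ]
      have k2 : (s.card : ℝ) ≤ (P1.card : ℝ) * Fintype.card Ω₂ + (P2.card : ℝ) * P3.card := by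
        exact_mod_cast k1
      have k3 : (P1.card : ℝ) * Fintype.card Ω₂ ≤ α₁ * (Fintype.card Ω₁ : ℝ) * Fintype.card Ω₂ :=
        mul_le_mul_of_nonneg_right hb1 (Nat.cast_nonneg _)
      have k4 : (P2.card : ℝ) * P3.card ≤
          (Φ₁ * (Fintype.card Ω₁ : ℝ)) * (α₂ * (Fintype.card Ω₂ : ℝ)) :=
        mul_le_mul hb2 hb3 (Nat.cast_nonneg _) (le_trans (Nat.cast_nonneg _) hb2)
      rw [Fintype.card_prod]
      push_cast
      calc (s.card : ℝ) ≤ _ := k2
        _ ≤ α₁ * (Fintype.card Ω₁ : ℝ) * Fintype.card Ω₂ +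
          (Φ₁ * (Fintype.card Ω₁ : ℝ)) * (α₂ * (Fintype.card Ω₂ : ℝ)) := add_le_add k3 k4
        _ = _ := by ring
    apply hsub
    intro ω hω
    have h5 := (mem_filter.1 (mem_filter.1 hω).2).2
    rw [mem_union, mem_product, mem_product]
    rcases h5 with h5 | ⟨h5, h6⟩
    · left
      exact ⟨mem_filter.2 ⟨mem_univ _, h5⟩, mem_univ _⟩
    · right
      exact ⟨mem_filter.2 ⟨mem_univ _, h5⟩, mem_filter.2 ⟨mem_univ _, h6⟩⟩
  · intro S hS
    rw [zero_mul]
    have key : ∀ s : Finset (Ω₁ × Ω₂), s = ∅ → (s.card : ℝ) ≤ 0 := by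
      rintro s rfl
      simp
    apply key
    rw [filter_eq_empty_iff]
    intro ω _
    rw [not_not]
    set S1 := low (d₁ + a) S with hS1
    have hS1c : S1.card = d₁ + a := card_low (by omega)
    have hS1S : S1 ⊆ S := low_subset _ _
    by_cases hc : ∃ Z ∈ A₁ ω.1, Z ⊆ S1
    · obtain ⟨Z, hZ, hZS⟩ := hc
      have hZc := c1 _ Z hZ
      have hDc : (S1 \ Z).card = a := by rw [card_sdiff_of_subset hZS, hS1c, hZc]; omega
      obtain ⟨e1, e2⟩ := low_sdiff_low (k := d₁) (S := S) (D := S1 \ Z) sdiff_subset hDc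
      have e3 : S1 \ (S1 \ Z) = Z := Finset.sdiff_sdiff_eq_self hZS
      rw [← hS1, e3] at e1
      refine ⟨S \ (S1 \ Z), mem_filter.2 ⟨mem_powersetCard.2 ⟨subset_univ _, ?_⟩, Or.inl ?_⟩,
        sdiff_subset⟩
      · rw [card_sdiff_of_subset (sdiff_subset.trans hS1S), hS, hDc]; omega
      · rw [e1]; exact hZ
    · have hc2 : (S \ S1).card = d₂ + a := by
        rw [card_sdiff_of_subset hS1S, hS, hS1c]; omega
      have h7 := g3 _ hc2
      rw [zero_mul] at h7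
      have h8 : ∃ Z ∈ A₂ ω.2, Z ⊆ S \ S1 := by
        by_contra hcon
        have h9 : ∀ s : Finset Ω₂, (s.card : ℝ) ≤ 0 → ω.2 ∉ s := by
          intro s hs hm
          have : 0 < s.card := card_pos.2 ⟨_, hm⟩
          have : (0 : ℝ) < (s.card : ℝ) := by exact_mod_cast this
          linarith
        exact h9 _ h7 (mem_filter.2 ⟨mem_univ _, hcon⟩)
      obtain ⟨Z, hZ, hZS⟩ := h8
      have hZc := g1 _ Z hZ
      have hDc : ((S \ S1) \ Z).card = a := by rw [card_sdiff_of_subset hZS, hc2, hZc]; omega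
      obtain ⟨e1, e2⟩ := low_sdiff_high (k := d₁ + a) (S := S) (D := (S \ S1) \ Z) sdiff_subset
      rw [← hS1] at e1 e2
      have e3 : (S \ S1) \ ((S \ S1) \ Z) = Z := Finset.sdiff_sdiff_eq_self hZS
      rw [e3] at e2
      refine ⟨S \ ((S \ S1) \ Z), mem_filter.2 ⟨mem_powersetCard.2 ⟨subset_univ _, ?_⟩,
        Or.inr ⟨?_, ?_⟩⟩, sdiff_subset⟩
      · rw [card_sdiff_of_subset (sdiff_subset.trans sdiff_subset), hS, hDc]; omega
      · rw [e1]; exact hc
      · rw [e2]; exact hZ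

end Pool.Agent.H740R2.Lim
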