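import Pool.Agent.H740R2.Lim.Basic
import Pool.Agent.H740R2.Lim.Perm
import Pool.Agent.H740R2.Lim.Two
import Pool.Agent.H740R2.Lim.Det
import Pool.Agent.H740R2.Lim.Bin
import Pool.Agent.H740R2.Lim.Bdd
import Pool.Agent.H369R2.TD.Prime

/-! T8: the limit theorem -/

set_option autoImplicit false

open Finset Filter Topology

namespace Pool.Agent.H740R2.Lim

/-- `C(t+a,a) ≤ (t/k)^a C(k+a,a)` -/
theorem choose_ratio (a : ℕ) {k t : ℕ} (hk : 1 ≤ k) (hkt : k ≤ t) :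
    ((t + a).choose a : ℝ) ≤ ((t : ℝ) / k) ^ a * ((k + a).choose a : ℝ) := by
  have hk' : (0 : ℝ) < k := by exact_mod_cast hk
  have hkt' : (k : ℝ) ≤ t := by exact_mod_cast hkt
  induction a with
  | zero => simp
  | succ a ih =>
    have h1 : ∀ m : ℕ, ((m + (a + 1)).choose (a + 1) : ℝ) =
        ((m + a).choose a : ℝ) * ((m : ℝ) + a + 1) / (a + 1) := by
      intro m
      have h := Nat.add_one_mul_choose_eq (m + a) a
      have h' : ((m : ℝ) + a + 1) * ((m + a).choose a : ℝ) =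
          ((m + a + 1).choose (a + 1) : ℝ) * (a + 1) := by exact_mod_cast h
      rw [eq_div_iff (by positivity), ← add_assoc, ← h']
      ring
    rw [h1, h1, pow_succ]
    have h2 : ((t : ℝ) + a + 1) ≤ (t : ℝ) / k * ((k : ℝ) + a + 1) := by
      rw [div_mul_eq_mul_div, le_div_iff₀ hk']
      have : (0 : ℝ) ≤ (a + 1 : ℝ) := by positivity
      nlinarith
    have h3 : (0 : ℝ) ≤ (t : ℝ) / k := by positivity
    calc ((t + a).choose a : ℝ) * ((t : ℝ) + a + 1) / (a + 1)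
        ≤ (((t : ℝ) / k) ^ a * ((k + a).choose a : ℝ)) * ((t : ℝ) / k * ((k : ℝ) + a + 1)) / (a + 1) := by
          gcongr
      _ = _ := by ring

/-- the recursion -/
theorem rec_tau {a : ℕ} (ha : 1 ≤ a) {τ : ℕ → ℝ}
    (hτ : ∀ k, Sys a k (τ k)) (hopt : ∀ k δ, Sys a k δ → τ k ≤ δ) {w d q : ℕ} (hw : 1 ≤ w)
    (hq : q.Prime) : τ (w + d + a) ≤ detA a w q τ + detF a w q * τ d := by
  have : Fact q.Prime := ⟨hq⟩
  apply hopt
  apply sys_of_rnd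
  intro n
  have h1 := det_rnd (ZMod q) ha hw (δ := τ) (fun m _ => hτ m) n
  rw [ZMod.card] at h1
  exact two_level h1 (rnd_of_sys (hτ d) n)

theorem detF_nonneg {a w q : ℕ} (hq : 2 ≤ q) : 0 ≤ detF a w q := by
  unfold detF
  have : (2 : ℝ) ≤ q := by exact_mod_cast hq
  apply Finset.sum_nonneg
  intro j _
  have h1 : (0 : ℝ) ≤ (q : ℝ) - 1 := by linarith
  positivity

theorem choose_eta (a : ℕ) (L : ℝ) {ε : ℝ} (hε : 0 < ε) : ∃ η : ℝ, 0 < η ∧ η ≤ 1 / 4 ∧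
      (1 / (1 - 2 * η)) ^ a * (1 + η) * (L * (1 + 3 * η) ^ a + η) + η ≤ L + ε := by
  have hcont : ContinuousAt (fun η : ℝ => (1 / (1 - 2 * η)) ^ a * ((1 + η) *
      (L * (1 + 3 * η) ^ a + η)) + η) 0 := by
    have h1 : ContinuousAt (fun η : ℝ => (1 / (1 - 2 * η))) 0 := by
      apply ContinuousAt.div continuousAt_const (by fun_prop)
      norm_num
    have h2 : ContinuousAt (fun η : ℝ => (1 / (1 - 2 * η)) ^ a) 0 := h1.pow a
    have h3 : ContinuousAt (fun η : ℝ => (1 + η) * (L * (1 + 3 * η) ^ a + η)) 0 := by fun_prop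
    exact (h2.mul h3).add continuousAt_id
  have hval : (1 / (1 - 2 * (0 : ℝ))) ^ a * ((1 + 0) * (L * (1 + 3 * 0) ^ a + 0)) + 0 = L := by
    simp
  have h5 : ∀ᶠ η : ℝ in 𝓝 0, (1 / (1 - 2 * η)) ^ a * ((1 + η) *
      (L * (1 + 3 * η) ^ a + η)) + η < L + ε := by
    have h6 := hcont.tendsto
    rw [hval] at h6
    exact h6.eventually (gt_mem_nhds (by linarith))
  rw [Metric.eventually_nhds_iff] at h5
  obtain ⟨r, hr, h7⟩ := h5
  refine ⟨min (r / 2) (1 / 4), lt_min (by linarith) (by norm_num), min_le_right _ _, ?_⟩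
  rw [mul_assoc]
  apply le_of_lt
  apply h7
  rw [Real.dist_eq, sub_zero, abs_of_pos (lt_min (by linarith) (by norm_num))]
  have := min_le_left (r / 2) (1 / 4 : ℝ)
  linarith

theorem choose_delta (a : ℕ) {M η : ℝ} (hM0 : 0 ≤ M) (hη0 : 0 < η) : ∃ δ : ℝ, 0 < δ ∧ M * δ ≤ η ∧
      (1 + η) * δ * ((2 / η) ^ a * M) ≤ η := by
  have hb1 : 0 ≤ (1 + η) * ((2 / η) ^ a * M) := by positivity
  set b : ℝ := (1 + η) * ((2 / η) ^ a * M) with hb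
  have hB1 : 0 < M + b + 1 := by linarith
  refine ⟨η / (M + b + 1), by positivity, ?_, ?_⟩
  · rw [mul_div_assoc', div_le_iff₀ hB1]
    have : 0 ≤ η * b := by positivity
    nlinarith
  · have : (1 + η) * (η / (M + b + 1)) * ((2 / η) ^ a * M) = b * η / (M + b + 1) := by
      rw [hb]; ring
    rw [this, div_le_iff₀ hB1]
    have : 0 ≤ η * M := by positivity
    nlinarith

theorem choose_split (a D : ℕ) {η : ℝ} (hη0 : 0 < η) (hη1 : η ≤ 1 / 4) :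
    ∃ N : ℕ, ∀ t ≥ N, ∃ d₁ d₂ : ℕ, t = d₁ + d₂ + a ∧ D ≤ d₁ ∧ 1 ≤ d₁ ∧ 1 ≤ d₂ ∧
      (1 - 2 * η) * (t : ℝ) ≤ d₁ ∧ η / 2 * (t : ℝ) ≤ d₂ ∧ (0 : ℝ) < t := by
  obtain ⟨N, hN⟩ := exists_nat_ge (2 * ((D : ℝ) + a + 1) / η)
  refine ⟨N, fun t ht => ?_⟩
  have htR : 2 * ((D : ℝ) + a + 1) / η ≤ t := by
    have : (N : ℝ) ≤ t := by exact_mod_cast ht
    linarith
  rw [div_le_iff₀ hη0] at htR
  have hD0 : (0 : ℝ) ≤ D := Nat.cast_nonneg _
  have ha0 : (0 : ℝ) ≤ a := Nat.cast_nonneg _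
  have hηt : 2 ≤ η * t := by linarith [mul_comm (t : ℝ) η]
  have htpos : (0 : ℝ) < t := by
    by_contra hcon
    push Not at hcon
    have : η * (t : ℝ) ≤ 0 := mul_nonpos_of_nonneg_of_nonpos hη0.le hcon
    linarith
  have hηt' : η * (t : ℝ) ≤ t / 4 := by
    have := mul_le_mul_of_nonneg_right hη1 htpos.le
    linarith
  have hd₂le : ((⌊η * t⌋₊ : ℕ) : ℝ) ≤ η * t := Nat.floor_le (by positivity)
  have hd₂lt : η * t < (⌊η * t⌋₊ : ℕ) + 1 := Nat.lt_floor_add_one _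
  set d₂ : ℕ := ⌊η * t⌋₊ with hd₂
  have hcomm : (t : ℝ) * η = η * t := mul_comm _ _
  have hsum : (d₂ : ℝ) + a ≤ 2 * (η * t) := by linarith
  have hsumN : d₂ + a ≤ t := by
    have : ((d₂ + a : ℕ) : ℝ) ≤ t := by push_cast; linarith
    exact_mod_cast this
  obtain ⟨d₁, hd₁⟩ : ∃ d₁, t = d₁ + d₂ + a := ⟨t - (d₂ + a), by omega⟩
  have hd₁R : (t : ℝ) = d₁ + d₂ + a := by exact_mod_cast hd₁
  have hd₁D : (D : ℝ) ≤ d₁ := by linarith
  have hd₁1 : (1 : ℝ) ≤ d₁ := by linarith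
  have hd₂1 : (1 : ℝ) ≤ d₂ := by linarith
  refine ⟨d₁, d₂, hd₁, by exact_mod_cast hd₁D, by exact_mod_cast hd₁1, by exact_mod_cast hd₂1,
    ?_, ?_, htpos⟩
  · have : (1 - 2 * η) * (t : ℝ) = t - 2 * (η * t) := by ring
    rw [this]
    linarith
  · have : η / 2 * (t : ℝ) = (η * t) / 2 := by ring
    rw [this]
    linarith

theorem window_params (a : ℕ) (ha : 1 ≤ a) {η δ : ℝ} (hη0 : 0 < η) (hδ : 0 < δ) :
    ∃ K : ℕ, ∀ k₀ ≥ K, ∃ s y x : ℝ, ∃ k₁ : ℕ, 0 < s ∧ 0 < y ∧ y < x ∧ x / s ^ 2 ≤ δ ∧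
      (k₁ : ℝ) ≤ (1 + 3 * η) * k₀ ∧ (k₀ : ℝ) + a + s ≤ y ∧ x + s ≤ (k₁ : ℝ) + a ∧ 1 ≤ k₀ := by
  obtain ⟨K, hK⟩ := exists_nat_ge (max (2 * a / η) (4 * (1 + 2 * η) / (η ^ 2 * δ)) + 1)
  refine ⟨K, fun k₀ hk₀K => ?_⟩
  have hk₀R : (K : ℝ) ≤ k₀ := by exact_mod_cast hk₀K
  have hka : 2 * a / η + 1 ≤ k₀ := by
    have := le_max_left (2 * a / η) (4 * (1 + 2 * η) / (η ^ 2 * δ)); linarith
  have hkb : 4 * (1 + 2 * η) / (η ^ 2 * δ) ≤ k₀ := by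
    have := le_max_right (2 * a / η) (4 * (1 + 2 * η) / (η ^ 2 * δ)); linarith
  have hka0 : 0 ≤ 2 * (a : ℝ) / η := by positivity
  have hk₀1 : (1 : ℝ) ≤ k₀ := by linarith
  have hk₀N : 1 ≤ k₀ := by exact_mod_cast hk₀1
  have hk₀pos : (0 : ℝ) < k₀ := by linarith
  have hka' : (a : ℝ) ≤ η / 2 * k₀ := by
    have h1 : 2 * (a : ℝ) / η ≤ k₀ := by linarith
    rw [div_le_iff₀ hη0] at h1
    linarith
  have haR : (1 : ℝ) ≤ a := by exact_mod_cast ha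
  have hk₁le : ((⌊(1 + 3 * η) * k₀⌋₊ : ℕ) : ℝ) ≤ (1 + 3 * η) * k₀ := Nat.floor_le (by positivity)
  have hk₁lt : (1 + 3 * η) * k₀ < (⌊(1 + 3 * η) * k₀⌋₊ : ℕ) + 1 := Nat.lt_floor_add_one _
  have hηk : 0 < η * k₀ := by positivity
  refine ⟨η / 2 * k₀, (1 + η) * k₀, (1 + 2 * η) * k₀, ⌊(1 + 3 * η) * k₀⌋₊, by positivity,
    by positivity, ?_, ?_, hk₁le, ?_, ?_, hk₀N⟩
  · linarith
  · rw [div_le_iff₀ (by positivity)]
    rw [div_le_iff₀ (by positivity)] at hkb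
    have h1 : 4 * (1 + 2 * η) * k₀ ≤ (k₀ * (η ^ 2 * δ)) * k₀ :=
      mul_le_mul_of_nonneg_right hkb hk₀pos.le
    have h2 : δ * (η / 2 * k₀) ^ 2 = ((k₀ * (η ^ 2 * δ)) * k₀) / 4 := by ring
    rw [h2]
    linarith
  · linarith
  · linarith

theorem q_facts {η y x : ℝ} {n q : ℕ} (hη0 : 0 < η) (hq2 : 2 ≤ q) (hqQ : 1 + 1 / η ≤ (q : ℝ))
    (hq1 : y ≤ (n : ℝ) / q) (hq2' : ((n : ℝ) + 1) / q * Real.exp (1 / q) ≤ x) :
    y ≤ (n : ℝ) * (1 / q) ∧ (n : ℝ) * (1 / q) ≤ x ∧ (0 : ℝ) ≤ 1 / q ∧ (1 : ℝ) / q ≤ 1 ∧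
      (q : ℝ) / ((q : ℝ) - 1) ≤ 1 + η ∧ 0 ≤ (q : ℝ) / ((q : ℝ) - 1) := by
  have hqR : (2 : ℝ) ≤ q := by exact_mod_cast hq2
  have hq0 : (0 : ℝ) < q := by linarith
  have hn0 : (0 : ℝ) ≤ n := Nat.cast_nonneg _
  refine ⟨by rw [mul_one_div]; exact hq1, ?_, by positivity, ?_, ?_, ?_⟩
  · rw [mul_one_div]
    refine le_trans ?_ hq2'
    have h1 : (1 : ℝ) ≤ Real.exp (1 / q) := Real.one_le_exp (by positivity)
    have h2 : (n : ℝ) / q ≤ ((n : ℝ) + 1) / q := by gcongr; linarith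
    have h3 : (0 : ℝ) ≤ ((n : ℝ) + 1) / q := by positivity
    have h4 := mul_le_mul_of_nonneg_left h1 h3
    linarith
  · rw [div_le_one hq0]; linarith
  · rw [div_le_iff₀ (by linarith)]
    have h1 : 1 ≤ η * ((q : ℝ) - 1) := by
      have h2 : 1 / η ≤ (q : ℝ) - 1 := by linarith
      rw [div_le_iff₀ hη0] at h2
      linarith
    linarith
  · exact div_nonneg (by linarith) (by linarith)

theorem pow_ratio (a : ℕ) {t d c : ℝ} (hd : 0 < d) (hc : 0 < c) (ht : 0 ≤ t) (h : c * t ≤ d) :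
    (t / d) ^ a ≤ (1 / c) ^ a := by
  apply pow_le_pow_left₀ (by positivity)
  rw [div_le_div_iff₀ hd hc]
  linarith

theorem choose_ratio' (a : ℕ) {t d : ℕ} {c : ℝ} (hd : 1 ≤ d) (hdt : d ≤ t) (hc : 0 < c)
    (h : c * (t : ℝ) ≤ d) :
    ((t + a).choose a : ℝ) ≤ (1 / c) ^ a * ((d + a).choose a : ℝ) := by
  refine (choose_ratio a hd hdt).trans ?_
  apply mul_le_mul_of_nonneg_right _ (Nat.cast_nonneg _)
  exact pow_ratio a (by exact_mod_cast hd) hc (Nat.cast_nonneg _) h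

/-- the estimate of the cost and failure of the code -/
theorem code_bound {a w k₀ k₁ q : ℕ} (ha : 1 ≤ a) (hw : 1 ≤ w) (hq2 : 2 ≤ q)
    {s L' M δ η y x : ℝ} {τ : ℕ → ℝ} (hτ0 : ∀ k, 0 ≤ τ k)
    (hη0 : 0 < η) (hs : 0 < s) (hL : 0 ≤ L') (hM : 0 ≤ M)
    (hlM : ∀ m, ((m + a).choose a : ℝ) * τ m ≤ M)
    (hlL : ∀ m, k₀ ≤ m → m ≤ k₁ → ((m + a).choose a : ℝ) * τ m ≤ L')
    (hx : x / s ^ 2 ≤ δ) (hlo : (k₀ : ℝ) + a + s ≤ y) (hhi : x + s ≤ (k₁ : ℝ) + a)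
    (hqQ : 1 + 1 / η ≤ (q : ℝ))
    (hq1 : y ≤ ((w + a : ℕ) : ℝ) / q)
    (hq2' : (((w + a : ℕ) : ℝ) + 1) / q * Real.exp (1 / q) ≤ x) :
    ((w + a).choose a : ℝ) * detA a w q τ ≤ (1 + η) * (L' + M * δ) ∧
      detF a w q ≤ (1 + η) * δ := by
  obtain ⟨hμ1, hμ2, hp0, hp1, hqq, hqq0⟩ := q_facts hη0 hq2 hqQ hq1 hq2'
  have hk0 : (0 : ℝ) ≤ k₀ := Nat.cast_nonneg _
  have hW := window (a := a) (w := w) (k₀ := k₀) (k₁ := k₁)
    (lam := fun m => ((m + a).choose a : ℝ) * τ m) (L := L') (M := M) hp0 hp1 hs hL hM hlM hlL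
    (by linarith) (by linarith)
  have hT := lower_tail (n := w + a) (a := a) (s := s) hp0 hp1 hs (by linarith)
  have hms : ((w + a : ℕ) : ℝ) * (1 / q) / s ^ 2 ≤ δ := by
    refine le_trans ?_ hx
    gcongr
  constructor
  · rw [choose_detA ha hq2]
    apply mul_le_mul hqq _ _ (by linarith)
    · refine hW.trans ?_
      have := mul_le_mul_of_nonneg_left hms hM
      linarith
    · apply Finset.sum_nonneg
      intro m _
      exact mul_nonneg (bin_nonneg hp0 hp1) (mul_nonneg (Nat.cast_nonneg _) (hτ0 m))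
  · rw [detF_eq hq2 hw]
    apply mul_le_mul hqq (hT.trans hms) _ (by linarith)
    apply Finset.sum_nonneg
    intro m _
    exact bin_nonneg hp0 hp1

theorem detA_nonneg {a w q : ℕ} (hq : 2 ≤ q) {τ : ℕ → ℝ} (hτ0 : ∀ k, 0 ≤ τ k) :
    0 ≤ detA a w q τ := by
  unfold detA
  have : (2 : ℝ) ≤ q := by exact_mod_cast hq
  apply Finset.sum_nonneg
  intro m _
  have h1 : (0 : ℝ) ≤ (q : ℝ) - 1 := by linarith
  have h2 := hτ0 m
  positivity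

theorem final_calc {C C1 C2 A F τt τd R1 R2 M E1 E2 : ℝ} (hC : 0 ≤ C)
    (hA : 0 ≤ A) (hF : 0 ≤ F) (hτd : 0 ≤ τd) (hR1 : 0 ≤ R1) (hR2 : 0 ≤ R2)
    (hrec : τt ≤ A + F * τd) (h1 : C ≤ R1 * C1) (h2 : C ≤ R2 * C2) (hA' : C1 * A ≤ E1)
    (hF' : F ≤ E2) (hM : C2 * τd ≤ M) (hM0 : 0 ≤ M) :
    C * τt ≤ R1 * E1 + E2 * (R2 * M) := by
  calc C * τt ≤ C * (A + F * τd) := mul_le_mul_of_nonneg_left hrec hC
    _ = C * A + C * (F * τd) := by ring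
    _ ≤ (R1 * C1) * A + (R2 * C2) * (F * τd) := by
        apply add_le_add
        · exact mul_le_mul_of_nonneg_right h1 hA
        · exact mul_le_mul_of_nonneg_right h2 (mul_nonneg hF hτd)
    _ = R1 * (C1 * A) + F * (R2 * (C2 * τd)) := by ring
    _ ≤ R1 * E1 + F * (R2 * M) := by
        apply add_le_add
        · exact mul_le_mul_of_nonneg_left hA' hR1
        · exact mul_le_mul_of_nonneg_left (mul_le_mul_of_nonneg_left hM hR2) hF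
    _ ≤ _ := by
        have := mul_le_mul_of_nonneg_right hF' (mul_nonneg hR2 hM0)
        linarith

/-- if `λ` is at most `L` infinitely often then it is eventually at most `L + ε` -/
theorem frequently_to_eventually {a : ℕ} (ha : 1 ≤ a) {τ : ℕ → ℝ} (hτ0 : ∀ k, 0 ≤ τ k)
    (hτ : ∀ k, Sys a k (τ k)) (hopt : ∀ k δ, Sys a k δ → τ k ≤ δ) {L : ℝ} (hL : 0 ≤ L)
    (hfr : ∀ K : ℕ, ∃ k ≥ K, ((k + a).choose a : ℝ) * τ k ≤ L) {ε : ℝ} (hε : 0 < ε) :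
    ∀ᶠ t : ℕ in atTop, ((t + a).choose a : ℝ) * τ t ≤ L + ε := by
  obtain ⟨M, hM0, hM⟩ := bdd a ha
  have hCpos : ∀ k : ℕ, (0 : ℝ) < ((k + a).choose a : ℝ) := fun k => by
    exact_mod_cast Nat.choose_pos (by omega)
  have hlamM : ∀ k, ((k + a).choose a : ℝ) * τ k ≤ M := fun k => by
    have := hopt k _ (hM k)
    rw [le_div_iff₀ (hCpos k)] at this
    linarith
  have hanti : Antitone τ := antitone_nat_of_succ_le fun k => hopt _ _ (hτ k).succ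
  obtain ⟨η, hη0, hη1, hη⟩ := choose_eta a L hε
  obtain ⟨δ, hδ0, hδ1, hδ2⟩ := choose_delta a hM0 hη0
  obtain ⟨K, hK⟩ := window_params a ha hη0 hδ0
  obtain ⟨k₀, hk₀K, hk₀⟩ := hfr K
  obtain ⟨s, y, x, k₁, hs0, hy0, hyx, hδs, hk₁le, hlo, hhi, hk₀N⟩ := hK k₀ hk₀K
  have hk₀pos : (0 : ℝ) < k₀ := by exact_mod_cast hk₀N
  have hwin : ∀ m, k₀ ≤ m → m ≤ k₁ →
      ((m + a).choose a : ℝ) * τ m ≤ L * (1 + 3 * η) ^ a := by
    intro m h1 h2
    have h3 := choose_ratio a hk₀N h1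
    have h4 : ((m : ℝ) / k₀) ≤ 1 + 3 * η := by
      rw [div_le_iff₀ hk₀pos]
      have : (m : ℝ) ≤ k₁ := by exact_mod_cast h2
      linarith
    have h5 : ((m : ℝ) / k₀) ^ a ≤ (1 + 3 * η) ^ a := pow_le_pow_left₀ (by positivity) h4 a
    calc ((m + a).choose a : ℝ) * τ m
        ≤ ((m + a).choose a : ℝ) * τ k₀ := mul_le_mul_of_nonneg_left (hanti h1) (hCpos m).le
      _ ≤ (((m : ℝ) / k₀) ^ a * ((k₀ + a).choose a : ℝ)) * τ k₀ :=
          mul_le_mul_of_nonneg_right h3 (hτ0 _)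
      _ = ((m : ℝ) / k₀) ^ a * (((k₀ + a).choose a : ℝ) * τ k₀) := by ring
      _ ≤ (1 + 3 * η) ^ a * L :=
          mul_le_mul h5 hk₀ (mul_nonneg (hCpos _).le (hτ0 _)) (by positivity)
      _ = _ := by ring
  have hpr := Pool.Agent.H369R2.TD.exists_q' hy0 hyx (1 + 1 / η)
  rw [eventually_atTop] at hpr
  obtain ⟨D, hD⟩ := hpr
  obtain ⟨N, hN⟩ := choose_split a D hη0 hη1
  rw [eventually_atTop]
  refine ⟨N, fun t ht => ?_⟩
  obtain ⟨d₁, d₂, hd₁, hd₁D, hd₁N, hd₂N, hd₁ge, hd₂ge, htpos⟩ := hN t ht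
  obtain ⟨q, hq, hqQ, hq1, hq2⟩ := hD (d₁ + a) (by omega)
  obtain ⟨hA, hF⟩ := code_bound (L' := L * (1 + 3 * η) ^ a) ha hd₁N hq.two_le hτ0 hη0 hs0
    (by positivity) hM0 hlamM hwin hδs hlo hhi hqQ hq1 hq2
  have hrec := rec_tau ha hτ hopt (w := d₁) (d := d₂) hd₁N hq
  rw [← hd₁] at hrec
  have hη2 : (0 : ℝ) < 1 - 2 * η := by linarith
  have hr1 : ((t + a).choose a : ℝ) ≤ (1 / (1 - 2 * η)) ^ a * ((d₁ + a).choose a : ℝ) :=
    choose_ratio' a hd₁N (by omega) hη2 hd₁ge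
  have hr2 : ((t + a).choose a : ℝ) ≤ (1 / (η / 2)) ^ a * ((d₂ + a).choose a : ℝ) :=
    choose_ratio' a hd₂N (by omega) (by linarith) hd₂ge
  have hcalc := final_calc (hCpos t).le (detA_nonneg hq.two_le hτ0) (detF_nonneg hq.two_le)
    (hτ0 d₂) (by positivity) (by positivity) hrec hr1 hr2 hA hF (hlamM d₂) hM0
  refine hcalc.trans ?_
  have h12 : (1 : ℝ) / (η / 2) = 2 / η := by field_simp
  rw [h12]
  have h13 : (1 / (1 - 2 * η)) ^ a * ((1 + η) * (L * (1 + 3 * η) ^ a + M * δ)) ≤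
      (1 / (1 - 2 * η)) ^ a * (1 + η) * (L * (1 + 3 * η) ^ a + η) := by
    rw [mul_assoc ((1 / (1 - 2 * η)) ^ a)]
    apply mul_le_mul_of_nonneg_left _ (by positivity)
    apply mul_le_mul_of_nonneg_left _ (by linarith)
    linarith
  linarith

theorem limit_exists {a : ℕ} (ha : 1 ≤ a) {τ : ℕ → ℝ} (hτ0 : ∀ k, 0 ≤ τ k)
    (hτ : ∀ k, Sys a k (τ k)) (hopt : ∀ k δ, Sys a k δ → τ k ≤ δ) :
    ∃ μ : ℝ, Tendsto (fun k : ℕ => ((k + a).choose a : ℝ) * τ k) atTop (𝓝 μ) := by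
  obtain ⟨M, hM0, hM⟩ := bdd a ha
  set lam : ℕ → ℝ := fun k => ((k + a).choose a : ℝ) * τ k with hlam
  have hCpos : ∀ k : ℕ, (0 : ℝ) < ((k + a).choose a : ℝ) := fun k => by
    exact_mod_cast Nat.choose_pos (by omega)
  have hlam0 : ∀ k, 0 ≤ lam k := fun k => mul_nonneg (hCpos k).le (hτ0 k)
  have hlamM : ∀ k, lam k ≤ M := fun k => by
    have := hopt k _ (hM k)
    rw [le_div_iff₀ (hCpos k)] at this
    simp only [hlam]
    linarith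
  have hbb : IsBoundedUnder (· ≥ ·) atTop lam := isBoundedUnder_of ⟨0, hlam0⟩
  have hba : IsBoundedUnder (· ≤ ·) atTop lam := isBoundedUnder_of ⟨M, hlamM⟩
  refine ⟨liminf lam atTop, tendsto_of_le_liminf_of_limsup_le le_rfl ?_ hba hbb⟩
  apply le_of_forall_pos_le_add
  intro ε hε
  have hlim0 : 0 ≤ liminf lam atTop := by
    apply le_liminf_of_le hba.isCoboundedUnder_ge
    exact Eventually.of_forall hlam0
  have hfr : ∃ᶠ k in atTop, lam k < liminf lam atTop + ε / 2 :=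
    frequently_lt_of_liminf_lt hba.isCoboundedUnder_ge (by linarith)
  rw [frequently_atTop] at hfr
  have hev := frequently_to_eventually ha hτ0 hτ hopt (L := liminf lam atTop + ε / 2)
    (by linarith) (fun K => by
      obtain ⟨k, hk1, hk2⟩ := hfr K
      exact ⟨k, hk1, hk2.le⟩) (show 0 < ε / 2 by linarith)
  apply limsup_le_of_le hbb.isCoboundedUnder_le
  filter_upwards [hev] with t ht
  have : lam t ≤ liminf lam atTop + ε / 2 + ε / 2 := ht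
  linarith

end Pool.Agent.H740R2.Lim
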