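import Pool.Agent.H740R2.Lim.Defs

/-! T7: Turan numbers, averaging, existence of the density -/

set_option autoImplicit false

open Finset Filter Topology

namespace Pool.Agent.H740R2.Lim

private theorem T_spec {n k t : ℕ} (htk : t ≤ k) :
    ∃ F : Finset (Finset (Fin n)), IsCovering n k t F ∧ F.card = T n k t := by
  have hne : {m : ℕ | ∃ F : Finset (Finset (Fin n)), IsCovering n k t F ∧ F.card = m}.Nonempty := by
    refine ⟨_, (univ : Finset (Fin n)).powersetCard t, ⟨fun Z hZ => (mem_powersetCard.1 hZ).2,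
      fun Y hY => ?_⟩, rfl⟩
    obtain ⟨Z, hZ, hZc⟩ := exists_subset_card_eq (s := Y) (n := t) (by omega)
    exact ⟨Z, mem_powersetCard.2 ⟨subset_univ _, hZc⟩, hZ⟩
  exact Nat.sInf_mem hne

private theorem T_le {n k t : ℕ} {F : Finset (Finset (Fin n))} (hF : IsCovering n k t F) :
    T n k t ≤ F.card := Nat.sInf_le ⟨F, hF, rfl⟩

private theorem choose_step {n t : ℕ} (htn : t ≤ n) :
    (n + 1).choose t * (n + 1 - t) = (n + 1) * n.choose t := by
  have h := Nat.choose_mul_succ_eq n t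
  linarith

open Classical in
private theorem T_step {n k t : ℕ} (htk : t ≤ k) (htn : t ≤ n) :
    (n + 1) * T n k t ≤ T (n + 1) k t * (n + 1 - t) := by
  obtain ⟨F, hF, hFc⟩ := T_spec (n := n + 1) htk
  -- the members avoiding `v`
  have h1 : ∀ v : Fin (n + 1), T n k t ≤ (F.filter fun Z => v ∉ Z).card := by
    intro v
    set G : Finset (Finset (Fin n)) :=
      (univ : Finset (Finset (Fin n))).filter fun Z => Z.map v.succAboveEmb ∈ F with hG
    have hcov : IsCovering n k t G := by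
      refine ⟨fun Z hZ => ?_, fun Y hY => ?_⟩
      · rw [hG, mem_filter] at hZ
        have := hF.1 _ hZ.2
        rwa [card_map] at this
      · obtain ⟨W, hW, hWY⟩ := hF.2 (Y.map v.succAboveEmb) (by rw [card_map, hY])
        obtain ⟨W', hW'1, hW'2⟩ := Finset.subset_map_iff.mp hWY
        exact ⟨W', by rw [hG, mem_filter, ← hW'2]; exact ⟨mem_univ _, hW⟩, hW'1⟩
    refine (T_le hcov).trans ?_
    apply Finset.card_le_card_of_injOn (fun Z => Z.map v.succAboveEmb)
    · intro Z hZ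
      rw [mem_coe, hG, mem_filter] at hZ
      rw [mem_coe, mem_filter]
      refine ⟨hZ.2, fun hv => ?_⟩
      rw [Finset.mem_map] at hv
      obtain ⟨x, _, hx⟩ := hv
      exact Fin.succAbove_ne v x hx
    · intro Z _ Z' _ h
      exact Finset.map_injective _ h
  have h2 : (n + 1) * T n k t ≤ ∑ v : Fin (n + 1), (F.filter fun Z => v ∉ Z).card := by
    calc (n + 1) * T n k t = ∑ _v : Fin (n + 1), T n k t := by
          rw [Finset.sum_const, card_univ, Fintype.card_fin, smul_eq_mul]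
      _ ≤ _ := Finset.sum_le_sum fun v _ => h1 v
  have h3 : ∑ v : Fin (n + 1), (F.filter fun Z => v ∉ Z).card = F.card * (n + 1 - t) := by
    simp_rw [Finset.card_filter]
    rw [Finset.sum_comm]
    rw [Finset.sum_congr rfl (g := fun _ => n + 1 - t), Finset.sum_const, smul_eq_mul]
    intro Z hZ
    rw [← Finset.card_filter]
    have h4 : (univ.filter fun v : Fin (n + 1) => v ∉ Z) = Zᶜ := by
      ext v; simp
    rw [h4, card_compl, Fintype.card_fin, hF.1 Z hZ]
  rw [h3, hFc] at h2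
  exact h2

theorem T_ratio_mono {n k t : ℕ} (htk : t ≤ k) (htn : t ≤ n) :
    (T n k t : ℝ) / (n.choose t : ℝ) ≤ (T (n + 1) k t : ℝ) / ((n + 1).choose t : ℝ) := by
  have h1 : (0 : ℝ) < (n.choose t : ℝ) := by exact_mod_cast Nat.choose_pos htn
  have h2 : (0 : ℝ) < ((n + 1).choose t : ℝ) := by exact_mod_cast Nat.choose_pos (by omega)
  rw [div_le_div_iff₀ h1 h2]
  have h3 : ((n + 1).choose t : ℝ) * ((n + 1 - t : ℕ) : ℝ) = ((n + 1 : ℕ) : ℝ) * (n.choose t : ℝ) := by
    exact_mod_cast choose_step htn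
  have h4 : ((n + 1 : ℕ) : ℝ) * (T n k t : ℝ) ≤ (T (n + 1) k t : ℝ) * ((n + 1 - t : ℕ) : ℝ) := by
    exact_mod_cast T_step htk htn
  have h5 : (0 : ℝ) < ((n + 1 - t : ℕ) : ℝ) := by
    have : 0 < n + 1 - t := by omega
    exact_mod_cast this
  have h6 : (T n k t : ℝ) * ((n + 1).choose t : ℝ) * ((n + 1 - t : ℕ) : ℝ) ≤
      (T (n + 1) k t : ℝ) * (n.choose t : ℝ) * ((n + 1 - t : ℕ) : ℝ) := by
    calc (T n k t : ℝ) * ((n + 1).choose t : ℝ) * ((n + 1 - t : ℕ) : ℝ)
        = (T n k t : ℝ) * (((n + 1).choose t : ℝ) * ((n + 1 - t : ℕ) : ℝ)) := by ring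
      _ = (((n + 1 : ℕ) : ℝ) * (T n k t : ℝ)) * (n.choose t : ℝ) := by rw [h3]; ring
      _ ≤ ((T (n + 1) k t : ℝ) * ((n + 1 - t : ℕ) : ℝ)) * (n.choose t : ℝ) :=
          mul_le_mul_of_nonneg_right h4 h1.le
      _ = _ := by ring
  exact le_of_mul_le_mul_right h6 h5

private theorem T_le_choose {n k t : ℕ} (htk : t ≤ k) : T n k t ≤ n.choose t := by
  have h := T_le (n := n) (k := k) (t := t) (F := (univ : Finset (Fin n)).powersetCard t)
    ⟨fun Z hZ => (mem_powersetCard.1 hZ).2, fun Y hY => by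
      obtain ⟨Z, hZ, hZc⟩ := exists_subset_card_eq (s := Y) (n := t) (by omega)
      exact ⟨Z, mem_powersetCard.2 ⟨subset_univ _, hZc⟩, hZ⟩⟩
  rwa [card_powersetCard, card_univ, Fintype.card_fin] at h

private theorem ratio_le {n k t : ℕ} (htk : t ≤ k) : (T n k t : ℝ) / (n.choose t : ℝ) ≤ 1 := by
  apply div_le_one_of_le₀
  · exact_mod_cast T_le_choose htk
  · positivity

theorem T_limit {k t : ℕ} (htk : t ≤ k) : ∃ τ : ℝ, 0 ≤ τ ∧ τ ≤ 1 ∧
    Tendsto (fun n : ℕ => (T n k t : ℝ) / (n.choose t : ℝ)) atTop (𝓝 τ) ∧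
    ∀ n, (T n k t : ℝ) ≤ τ * (n.choose t : ℝ) := by
  set u : ℕ → ℝ := fun n => (T n k t : ℝ) / (n.choose t : ℝ) with hu
  set v : ℕ → ℝ := fun n => u (n + t) with hv
  have hmono : Monotone v := by
    apply monotone_nat_of_le_succ
    intro n
    have := T_ratio_mono (n := n + t) htk (by omega)
    show u (n + t) ≤ u (n + 1 + t)
    have h1 : n + 1 + t = n + t + 1 := by omega
    rw [h1]
    exact this
  have hbdd : BddAbove (Set.range v) := by
    refine ⟨1, ?_⟩
    rintro _ ⟨n, rfl⟩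
    exact ratio_le htk
  have hlim : Tendsto v atTop (𝓝 (⨆ n, v n)) := tendsto_atTop_ciSup hmono hbdd
  have hle : ∀ n, v n ≤ ⨆ n, v n := fun n => le_ciSup hbdd n
  have h0 : 0 ≤ ⨆ n, v n := le_trans (by simp only [hv, hu]; positivity) (hle 0)
  refine ⟨⨆ n, v n, h0, ciSup_le fun n => ratio_le htk, (tendsto_add_atTop_iff_nat t).1 hlim, ?_⟩
  intro n
  by_cases hn : t ≤ n
  · have h1 : (0 : ℝ) < (n.choose t : ℝ) := by exact_mod_cast Nat.choose_pos hn
    rw [← div_le_iff₀ h1]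
    have h2 := hle (n - t)
    simp only [hv, hu] at h2
    rwa [Nat.sub_add_cancel hn] at h2
  · have h1 : T n k t ≤ n.choose t := T_le_choose htk
    rw [Nat.choose_eq_zero_of_lt (by omega)] at h1
    have h2 : T n k t = 0 := by omega
    rw [h2, Nat.choose_eq_zero_of_lt (by omega)]
    simp

theorem sys_iff {a k : ℕ} {δ : ℝ} :
    Sys a k δ ↔ ∀ n, (T n (k + a) k : ℝ) ≤ δ * (n.choose k : ℝ) := by
  constructor
  · intro h n
    obtain ⟨F, h1, h2, h3⟩ := h n
    have h4 : T n (k + a) k ≤ F.card := T_le ⟨h1, h2⟩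
    have h5 : (T n (k + a) k : ℝ) ≤ (F.card : ℝ) := by exact_mod_cast h4
    exact h5.trans h3
  · intro h n
    obtain ⟨F, hF, hFc⟩ := T_spec (n := n) (k := k + a) (t := k) (by omega)
    refine ⟨F, hF.1, hF.2, ?_⟩
    rw [hFc]
    exact h n

end Pool.Agent.H740R2.Lim
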