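import Pool.Agent.H740R2.Lim.Defs

set_option autoImplicit false

open Finset Filter Topology

namespace Pool.Agent.H740R2.Lim

/-! T1 (file Basic.lean): as in `Pool/Agent/H369R2/TD/Basic.lean`, general `a` -/

theorem Sys.mono {a k : ℕ} {δ δ' : ℝ} (h : Sys a k δ) (hd : δ ≤ δ') : Sys a k δ' := sorry

theorem Sys.succ {a k : ℕ} {δ : ℝ} (h : Sys a k δ) : Sys a (k + 1) δ := sorry

theorem sys_one (a k : ℕ) : Sys a k 1 := sorry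

theorem sys_of_rnd {a d : ℕ} {α : ℝ} (h : ∀ n, Rnd a n d α 0) : Sys a d α := sorry

/-! T2 (file Perm.lean): a system moved by a random permutation (use
`Pool.Agent.H369R2.TD.perm_count`) -/

theorem rnd_of_sys {a k : ℕ} {δ : ℝ} (h : Sys a k δ) (n : ℕ) : Rnd a n k δ 0 := sorry

/-! T3 (file Two.lean): the two-part construction by rank order -/

open Pool.Agent.H369R2.TD (low)

theorem low_sdiff_low {n a k : ℕ} {S D : Finset (Fin n)} (hD : D ⊆ low (k + a) S)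
    (hc : D.card = a) : low k (S \ D) = low (k + a) S \ D ∧
      (S \ D) \ low k (S \ D) = S \ low (k + a) S := sorry

theorem low_sdiff_high {n k : ℕ} {S D : Finset (Fin n)} (hD : D ⊆ S \ low k S) :
    low k (S \ D) = low k S ∧ (S \ D) \ low k (S \ D) = (S \ low k S) \ D := sorry

theorem two_level {a n d₁ d₂ : ℕ} {α₁ α₂ Φ₁ : ℝ} (h₁ : Rnd a n d₁ α₁ Φ₁) (h₂ : Rnd a n d₂ α₂ 0) :
    Rnd a n (d₁ + d₂ + a) (α₁ + Φ₁ * α₂) 0 := sorry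

/-! T4 (file Det.lean): the code, general `a`; adapt `Pool/Agent/H369R2/TD/Det.lean` -/

theorem det_rnd (F : Type) [Field F] [Fintype F] {a w : ℕ} (ha : 1 ≤ a) (hw : 1 ≤ w) {δ : ℕ → ℝ}
    (hδ : ∀ m, m < w → Sys a m (δ m)) (n : ℕ) :
    Rnd a n w (detA a w (Fintype.card F) δ) (detF a w (Fintype.card F)) := sorry

/-! T5 (file Bin.lean): binomial identities and Chebyshev -/

theorem choose_detA {a w q : ℕ} (ha : 1 ≤ a) (hq : 2 ≤ q) (δ : ℕ → ℝ) :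
    ((w + a).choose a : ℝ) * detA a w q δ =
      (q : ℝ) / ((q : ℝ) - 1) * ∑ m ∈ range w, bin (w + a) (m + a) (1 / q) *
        (((m + a).choose a : ℝ) * δ m) := sorry

theorem detF_eq {a w q : ℕ} (hq : 2 ≤ q) (hw : 1 ≤ w) :
    detF a w q = (q : ℝ) / ((q : ℝ) - 1) * ∑ j ∈ range a, bin (w + a) j (1 / q) := sorry

theorem bin_nonneg {n j : ℕ} {p : ℝ} (h0 : 0 ≤ p) (h1 : p ≤ 1) : 0 ≤ bin n j p := sorry

theorem bin_sum (n : ℕ) (p : ℝ) : ∑ j ∈ range (n + 1), bin n j p = 1 := sorry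

theorem cheb {n : ℕ} {p s : ℝ} (h0 : 0 ≤ p) (h1 : p ≤ 1) (hs : 0 < s) :
    ∑ j ∈ (range (n + 1)).filter (fun j : ℕ => s ≤ |(j : ℝ) - n * p|), bin n j p ≤
      n * p / s ^ 2 := sorry

theorem window {a w k₀ k₁ : ℕ} {p s L M : ℝ} {lam : ℕ → ℝ} (h0 : 0 ≤ p) (h1 : p ≤ 1) (hs : 0 < s)
    (hL : 0 ≤ L) (hM : 0 ≤ M) (hlM : ∀ m, lam m ≤ M)
    (hlL : ∀ m, k₀ ≤ m → m ≤ k₁ → lam m ≤ L)
    (hlo : (k₀ : ℝ) + a + s ≤ ((w + a : ℕ) : ℝ) * p)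
    (hhi : ((w + a : ℕ) : ℝ) * p + s ≤ (k₁ : ℝ) + a) :
    ∑ m ∈ range w, bin (w + a) (m + a) p * lam m ≤
      L + M * (((w + a : ℕ) : ℝ) * p / s ^ 2) := sorry

theorem lower_tail {n a : ℕ} {p s : ℝ} (h0 : 0 ≤ p) (h1 : p ≤ 1) (hs : 0 < s)
    (hlo : (a : ℝ) + s ≤ n * p) :
    ∑ j ∈ range a, bin n j p ≤ n * p / s ^ 2 := sorry

/-! T6 (file Bdd.lean): boundedness from helper279's uniform bound
`Pool.Agent.H279R2.Tur.bound_two` -/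

theorem bdd (a : ℕ) (ha : 1 ≤ a) :
    ∃ M : ℝ, 0 ≤ M ∧ ∀ k : ℕ, Sys a k (M / ((k + a).choose a : ℝ)) := sorry

/-! T7 (file Num.lean): Turán numbers, monotonicity in `n`, existence of the density -/

theorem T_ratio_mono {n k t : ℕ} (htk : t ≤ k) (htn : t ≤ n) :
    (T n k t : ℝ) / (n.choose t : ℝ) ≤ (T (n + 1) k t : ℝ) / ((n + 1).choose t : ℝ) := sorry

theorem T_limit {k t : ℕ} (htk : t ≤ k) : ∃ τ : ℝ, 0 ≤ τ ∧ τ ≤ 1 ∧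
    Tendsto (fun n : ℕ => (T n k t : ℝ) / (n.choose t : ℝ)) atTop (𝓝 τ) ∧
    ∀ n, (T n k t : ℝ) ≤ τ * (n.choose t : ℝ) := sorry

theorem sys_iff {a k : ℕ} {δ : ℝ} : Sys a k δ ↔ ∀ n, (T n (k + a) k : ℝ) ≤ δ * (n.choose k : ℝ) :=
  sorry

/-! T8 (file Main.lean): the limit theorem -/

theorem limit_exists {a : ℕ} (ha : 1 ≤ a) {τ : ℕ → ℝ} (hτ0 : ∀ k, 0 ≤ τ k)
    (hτ : ∀ k, Sys a k (τ k)) (hopt : ∀ k δ, Sys a k δ → τ k ≤ δ) :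
    ∃ μ : ℝ, Tendsto (fun k : ℕ => ((k + a).choose a : ℝ) * τ k) atTop (𝓝 μ) := sorry

end Pool.Agent.H740R2.Lim
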