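import Pool.Agent.H740R2.Lim.Main
import Pool.Agent.H242R2.Turan.T6

/-! The Poisson transfer inequality for the limits `μ_a` (helper740) -/

set_option autoImplicit false

open Finset Filter Topology

namespace Pool.Agent.H740R2.Lim

/-- Poisson weights -/
noncomputable def poi (y : ℝ) (j : ℕ) : ℝ := Real.exp (-y) * y ^ j / (j.factorial : ℝ)

theorem poi_nonneg {y : ℝ} (hy : 0 ≤ y) (j : ℕ) : 0 ≤ poi y j := by
  unfold poi; positivity

theorem bin_le {n j : ℕ} {p : ℝ} (h0 : 0 ≤ p) (h1 : p ≤ 1) :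
    bin n j p ≤ (n * p) ^ j / (j.factorial : ℝ) := by
  unfold bin
  have h2 : ((n.choose j : ℕ) : ℝ) ≤ (n : ℝ) ^ j / (j.factorial : ℝ) := Nat.choose_le_pow_div j n
  have h3 : (1 - p) ^ (n - j) ≤ 1 := pow_le_one₀ (by linarith) (by linarith)
  have h4 : 0 ≤ (1 - p) ^ (n - j) := pow_nonneg (by linarith) _
  calc (n.choose j : ℝ) * p ^ j * (1 - p) ^ (n - j)
      ≤ (n.choose j : ℝ) * p ^ j * 1 := mul_le_mul_of_nonneg_left h3 (by positivity)
    _ ≤ ((n : ℝ) ^ j / (j.factorial : ℝ)) * p ^ j * 1 := by gcongr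
    _ = _ := by rw [mul_pow]; ring

theorem bin_eq_zero {n j : ℕ} {p : ℝ} (h : n < j) : bin n j p = 0 := by
  unfold bin
  rw [Nat.choose_eq_zero_of_lt h]
  simp

theorem bin_tendsto {p : ℕ → ℝ} {y : ℝ} (h : Tendsto (fun n : ℕ => (n : ℝ) * p n) atTop (𝓝 y))
    (j : ℕ) : Tendsto (fun n : ℕ => bin n j (p n)) atTop (𝓝 (poi y j)) :=
  ProbabilityTheory.tendsto_choose_mul_pow_of_tendsto_mul_atTop j h

/-- convergence of the expected values -/
theorem tsum_tendsto {a : ℕ} {p : ℕ → ℝ} {y M : ℝ}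
    (h : Tendsto (fun n : ℕ => (n : ℝ) * p n) atTop (𝓝 y))
    (hp : ∀ᶠ n in atTop, 0 ≤ p n ∧ p n ≤ 1) {lam : ℕ → ℝ} (h0 : ∀ m, 0 ≤ lam m)
    (hM : ∀ m, lam m ≤ M) :
    Tendsto (fun n : ℕ => ∑' m, bin n (m + a) (p n) * lam m) atTop
      (𝓝 (∑' m, poi y (m + a) * lam m)) := by
  have hM0 : 0 ≤ M := (h0 0).trans (hM 0)
  apply tendsto_tsum_of_dominated_convergence
    (bound := fun m : ℕ => (|y| + 1) ^ (m + a) / ((m + a).factorial : ℝ) * M)
  · have h1 : Summable fun m : ℕ => (|y| + 1) ^ m / (m.factorial : ℝ) :=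
      Real.summable_pow_div_factorial _
    exact ((summable_nat_add_iff a).2 h1).mul_right M
  · intro m
    exact (bin_tendsto h (m + a)).mul_const _
  · have h2 : ∀ᶠ n : ℕ in atTop, (n : ℝ) * p n ≤ |y| + 1 := by
      have : y < |y| + 1 := by linarith [le_abs_self y]
      filter_upwards [h.eventually (gt_mem_nhds this)] with n hn
      exact hn.le
    filter_upwards [h2, hp] with n hn ⟨hp0, hp1⟩ m
    rw [Real.norm_eq_abs, abs_of_nonneg (mul_nonneg (bin_nonneg hp0 hp1) (h0 m))]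
    apply mul_le_mul _ (hM m) (h0 m) (by positivity)
    refine (bin_le hp0 hp1).trans ?_
    gcongr

theorem sum_le_tsum {a w : ℕ} {p : ℝ} (hp0 : 0 ≤ p) (hp1 : p ≤ 1) {lam : ℕ → ℝ}
    (h0 : ∀ m, 0 ≤ lam m) :
    ∑ m ∈ range w, bin (w + a) (m + a) p * lam m ≤ ∑' m, bin (w + a) (m + a) p * lam m := by
  apply Summable.sum_le_tsum
  · intro m _
    exact mul_nonneg (bin_nonneg hp0 hp1) (h0 m)
  · apply summable_of_ne_finset_zero (s := range (w + 1))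
    intro m hm
    rw [Finset.mem_range] at hm
    rw [bin_eq_zero (by omega), zero_mul]

theorem floor_split (a : ℕ) {x : ℝ} (hx0 : 0 < x) (hx1 : x < 1) :
    (∀ᶠ t : ℕ in atTop, 1 ≤ ⌊x * t⌋₊ ∧ 1 ≤ t - a - ⌊x * t⌋₊ ∧
      t = ⌊x * t⌋₊ + (t - a - ⌊x * t⌋₊) + a) ∧
    Tendsto (fun t : ℕ => ⌊x * t⌋₊ + a) atTop atTop ∧
    Tendsto (fun t : ℕ => t - a - ⌊x * t⌋₊) atTop atTop ∧
    Tendsto (fun t : ℕ => (t : ℝ) / ((⌊x * t⌋₊ : ℕ) : ℝ)) atTop (𝓝 (1 / x)) ∧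
    Tendsto (fun t : ℕ => (t : ℝ) / ((t - a - ⌊x * t⌋₊ : ℕ) : ℝ)) atTop (𝓝 (1 / (1 - x))) := by
  have hnat : Tendsto (fun t : ℕ => (t : ℝ)) atTop atTop := tendsto_natCast_atTop_atTop
  have h1 : Tendsto (fun t : ℕ => ((⌊x * t⌋₊ : ℕ) : ℝ) / (t : ℝ)) atTop (𝓝 x) :=
    (tendsto_nat_floor_mul_div_atTop hx0.le).comp hnat
  have hfl : Tendsto (fun t : ℕ => ⌊x * t⌋₊) atTop atTop :=
    tendsto_nat_floor_atTop.comp (hnat.const_mul_atTop hx0)
  -- eventually `⌊x t⌋ + a < t`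
  have hev : ∀ᶠ t : ℕ in atTop, ⌊x * t⌋₊ + a + 1 ≤ t := by
    obtain ⟨N, hN⟩ := exists_nat_ge (((a : ℝ) + 1) / (1 - x))
    filter_upwards [eventually_ge_atTop N] with t ht
    have h2 : ((a : ℝ) + 1) / (1 - x) ≤ t := hN.trans (by exact_mod_cast ht)
    rw [div_le_iff₀ (by linarith)] at h2
    have h3 : ((⌊x * t⌋₊ : ℕ) : ℝ) ≤ x * t := Nat.floor_le (by positivity)
    have h4 : ((⌊x * t⌋₊ + a + 1 : ℕ) : ℝ) ≤ t := by push_cast; nlinarith
    exact_mod_cast h4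
  have hcast : ∀ᶠ t : ℕ in atTop, ((t - a - ⌊x * t⌋₊ : ℕ) : ℝ) / (t : ℝ) =
      1 - (a : ℝ) / t - ((⌊x * t⌋₊ : ℕ) : ℝ) / (t : ℝ) := by
    filter_upwards [hev, eventually_ge_atTop 1] with t ht ht1
    have htR : (0 : ℝ) < t := by exact_mod_cast ht1
    rw [Nat.cast_sub (by omega), Nat.cast_sub (by omega)]
    field_simp
  have h5 : Tendsto (fun t : ℕ => ((t - a - ⌊x * t⌋₊ : ℕ) : ℝ) / (t : ℝ)) atTop (𝓝 (1 - x)) := by
    refine Tendsto.congr' (hcast.mono fun _ h => h.symm) ?_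
    have h6 : Tendsto (fun t : ℕ => (a : ℝ) / t) atTop (𝓝 0) := tendsto_const_div_atTop_nhds_zero_nat (a : ℝ)
    have h7 := (tendsto_const_nhds (x := (1 : ℝ)) (f := (atTop : Filter ℕ))).sub h6
    have h8 := h7.sub h1
    simpa using h8
  have h9 : Tendsto (fun t : ℕ => (t : ℝ) / ((⌊x * t⌋₊ : ℕ) : ℝ)) atTop (𝓝 (1 / x)) := by
    have := h1.inv₀ hx0.ne'
    simpa [one_div, inv_div] using this
  have h10 : Tendsto (fun t : ℕ => (t : ℝ) / ((t - a - ⌊x * t⌋₊ : ℕ) : ℝ)) atTop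
      (𝓝 (1 / (1 - x))) := by
    have := h5.inv₀ (by linarith)
    simpa [one_div, inv_div] using this
  refine ⟨?_, ?_, ?_, h9, h10⟩
  · filter_upwards [hev, hfl.eventually_ge_atTop 1] with t ht ht1
    omega
  · exact tendsto_atTop_mono (fun t => Nat.le_add_right _ _) hfl
  · have h11 : Tendsto (fun t : ℕ => ((t - a - ⌊x * t⌋₊ : ℕ) : ℝ)) atTop atTop := by
      have h12 : Tendsto (fun t : ℕ => (((t - a - ⌊x * t⌋₊ : ℕ) : ℝ) / (t : ℝ)) * (t : ℝ))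
          atTop atTop := h5.pos_mul_atTop (by linarith) hnat
      refine h12.congr' ?_
      filter_upwards [eventually_ge_atTop 1] with t ht
      have htR : (0 : ℝ) < t := by exact_mod_cast ht
      field_simp
    exact tendsto_natCast_atTop_iff.1 h11

/-- the transfer inequality with a free splitting parameter -/
theorem transfer_x {a : ℕ} (ha : 1 ≤ a) {τ : ℕ → ℝ} (hτ0 : ∀ k, 0 ≤ τ k)
    (hτ : ∀ k, Sys a k (τ k)) (hopt : ∀ k δ, Sys a k δ → τ k ≤ δ) {μ : ℝ}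
    (hμ : Tendsto (fun k : ℕ => ((k + a).choose a : ℝ) * τ k) atTop (𝓝 μ)) {y x : ℝ} (hy : 0 < y)
    (hx0 : 0 < x) (hx1 : x < 1) :
    μ ≤ (1 / x) ^ a * (∑' m, poi y (m + a) * (((m + a).choose a : ℝ) * τ m)) +
      (∑ j ∈ range a, poi y j) * ((1 / (1 - x)) ^ a * μ) := by
  obtain ⟨M, hM0, hM⟩ := bdd a ha
  have hCpos : ∀ k : ℕ, (0 : ℝ) < ((k + a).choose a : ℝ) := fun k => by
    exact_mod_cast Nat.choose_pos (by omega)
  have hlamM : ∀ k, ((k + a).choose a : ℝ) * τ k ≤ M := fun k => by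
    have := hopt k _ (hM k)
    rw [le_div_iff₀ (hCpos k)] at this
    linarith
  have hlam0 : ∀ k, 0 ≤ ((k + a).choose a : ℝ) * τ k := fun k => mul_nonneg (hCpos k).le (hτ0 k)
  obtain ⟨Q, hQ, hQy⟩ := Pool.Agent.H242R2.Turan.exists_primes hy
  set p : ℕ → ℝ := fun n => 1 / (Q n : ℝ) with hp
  have hnp : Tendsto (fun n : ℕ => (n : ℝ) * p n) atTop (𝓝 y) := by
    refine hQy.congr fun n => ?_
    rw [hp]; simp only; rw [mul_one_div]
  have hp0 : Tendsto p atTop (𝓝 0) :=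
    ProbabilityTheory.tendsto_zero_of_tendsto_mul_atTop hnp
  have hp01 : ∀ᶠ n in atTop, 0 ≤ p n ∧ p n ≤ 1 := by
    filter_upwards [hQ] with n hn
    have : (2 : ℝ) ≤ Q n := by exact_mod_cast hn.two_le
    refine ⟨by rw [hp]; positivity, ?_⟩
    rw [hp]; simp only
    rw [div_le_one (by linarith)]; linarith
  have hqq : Tendsto (fun n : ℕ => (Q n : ℝ) / ((Q n : ℝ) - 1)) atTop (𝓝 1) := by
    have h1 : Tendsto (fun n : ℕ => 1 / (1 - p n)) atTop (𝓝 (1 / (1 - 0))) :=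
      Tendsto.div tendsto_const_nhds (tendsto_const_nhds.sub hp0) (by norm_num)
    rw [sub_zero, div_one] at h1
    refine h1.congr' ?_
    filter_upwards [hQ] with n hn
    have : (2 : ℝ) ≤ Q n := by exact_mod_cast hn.two_le
    have h2 : (Q n : ℝ) - 1 ≠ 0 := by linarith
    have h3 : (Q n : ℝ) ≠ 0 := by linarith
    rw [hp]; simp only
    have h4 : 1 - 1 / (Q n : ℝ) ≠ 0 := by
      rw [sub_ne_zero]; intro h
      rw [eq_div_iff h3] at h
      apply h2; linarith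
    field_simp
  -- the limits of cost and failure
  have hS := tsum_tendsto (a := a) hnp hp01 hlam0 hlamM
  have hPhi : Tendsto (fun n : ℕ => ∑ j ∈ range a, bin n j (p n)) atTop
      (𝓝 (∑ j ∈ range a, poi y j)) := tendsto_finsetSum _ fun j _ => bin_tendsto hnp j
  obtain ⟨s1, s2, s3, s4, s5⟩ := floor_split a hx0 hx1
  -- the inequality
  have key : ∀ᶠ t : ℕ in atTop, ((t + a).choose a : ℝ) * τ t ≤
      ((t : ℝ) / ((⌊x * t⌋₊ : ℕ) : ℝ)) ^ a *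
        ((Q (⌊x * t⌋₊ + a) : ℝ) / ((Q (⌊x * t⌋₊ + a) : ℝ) - 1) *
          ∑' m, bin (⌊x * t⌋₊ + a) (m + a) (p (⌊x * t⌋₊ + a)) * (((m + a).choose a : ℝ) * τ m)) +
      ((Q (⌊x * t⌋₊ + a) : ℝ) / ((Q (⌊x * t⌋₊ + a) : ℝ) - 1) *
          ∑ j ∈ range a, bin (⌊x * t⌋₊ + a) j (p (⌊x * t⌋₊ + a))) *
        (((t : ℝ) / ((t - a - ⌊x * t⌋₊ : ℕ) : ℝ)) ^ a *
          ((((t - a - ⌊x * t⌋₊) + a).choose a : ℝ) * τ (t - a - ⌊x * t⌋₊))) := by
    filter_upwards [s1, s2.eventually hQ, s2.eventually hp01] with t ⟨h1, h2, h3⟩ hq ⟨hpp0, hpp1⟩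
    set d₁ := ⌊x * t⌋₊ with hd₁
    set d₂ := t - a - d₁ with hd₂
    set q := Q (d₁ + a) with hqdef
    have hqR : (2 : ℝ) ≤ q := by exact_mod_cast hq.two_le
    have hqq0 : 0 ≤ (q : ℝ) / ((q : ℝ) - 1) := div_nonneg (by linarith) (by linarith)
    have hrec := rec_tau ha hτ hopt (w := d₁) (d := d₂) h1 hq
    rw [← h3] at hrec
    have hA : ((d₁ + a).choose a : ℝ) * detA a d₁ q τ ≤ (q : ℝ) / ((q : ℝ) - 1) *
        ∑' m, bin (d₁ + a) (m + a) (p (d₁ + a)) * (((m + a).choose a : ℝ) * τ m) := by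
      rw [choose_detA ha hq.two_le]
      exact mul_le_mul_of_nonneg_left (sum_le_tsum hpp0 hpp1 hlam0) hqq0
    have hF : detF a d₁ q ≤ (q : ℝ) / ((q : ℝ) - 1) *
        ∑ j ∈ range a, bin (d₁ + a) j (p (d₁ + a)) := by
      rw [detF_eq hq.two_le h1]
    have hC := final_calc (R1 := ((t : ℝ) / (d₁ : ℝ)) ^ a) (R2 := ((t : ℝ) / (d₂ : ℝ)) ^ a)
      (hCpos t).le (detA_nonneg (a := a) (w := d₁) hq.two_le hτ0) (detF_nonneg hq.two_le)
      (hτ0 d₂) (by positivity) (by positivity) hrec (choose_ratio a h1 (by omega))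
      (choose_ratio a h2 (by omega)) hA hF le_rfl (hlam0 d₂)
    exact hC
  -- pass to the limit
  have hlim := (((s4.pow a).mul (((hqq.comp s2)).mul (hS.comp s2))).add
    (((hqq.comp s2).mul (hPhi.comp s2)).mul ((s5.pow a).mul (hμ.comp s3))))
  rw [one_mul, one_mul] at hlim
  exact le_of_tendsto_of_tendsto hμ hlim key

theorem poi_range_lt_one {a : ℕ} {y : ℝ} (hy : 0 < y) : ∑ j ∈ range a, poi y j < 1 := by
  have h1 : ∑ j ∈ range a, y ^ j / (j.factorial : ℝ) < Real.exp y := by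
    refine lt_of_lt_of_le ?_ (Real.sum_le_exp_of_nonneg hy.le (a + 1))
    rw [Finset.sum_range_succ]
    have : 0 < y ^ a / (a.factorial : ℝ) := by positivity
    linarith
  have h2 : ∑ j ∈ range a, poi y j = Real.exp (-y) * ∑ j ∈ range a, y ^ j / (j.factorial : ℝ) := by
    rw [Finset.mul_sum]
    apply Finset.sum_congr rfl
    intro j _
    unfold poi
    ring
  rw [h2, Real.exp_neg, inv_mul_lt_iff₀ (Real.exp_pos y), mul_one]
  exact h1

/-- **Poisson transfer inequality** -/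
theorem transfer {a : ℕ} (ha : 1 ≤ a) {τ : ℕ → ℝ} (hτ0 : ∀ k, 0 ≤ τ k)
    (hτ : ∀ k, Sys a k (τ k)) (hopt : ∀ k δ, Sys a k δ → τ k ≤ δ) {μ : ℝ}
    (hμ : Tendsto (fun k : ℕ => ((k + a).choose a : ℝ) * τ k) atTop (𝓝 μ)) {y : ℝ} (hy : 0 < y) :
    (1 - (∑ j ∈ range a, poi y j) ^ ((1 : ℝ) / (a + 1))) ^ (a + 1) * μ ≤
      ∑' m, poi y (m + a) * (((m + a).choose a : ℝ) * τ m) := by
  set Φ := ∑ j ∈ range a, poi y j with hΦ
  set S := ∑' m, poi y (m + a) * (((m + a).choose a : ℝ) * τ m) with hS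
  have hΦ0 : 0 < Φ := by
    rw [hΦ]
    apply Finset.sum_pos
    · intro j _; unfold poi; positivity
    · exact ⟨0, by rw [Finset.mem_range]; omega⟩
  have hΦ1 : Φ < 1 := poi_range_lt_one hy
  set v := Φ ^ ((1 : ℝ) / (a + 1)) with hv
  have hv0 : 0 < v := Real.rpow_pos_of_pos hΦ0 _
  have hv1 : v < 1 := Real.rpow_lt_one hΦ0.le hΦ1 (by positivity)
  have hvp : v ^ (a + 1) = Φ := by
    rw [hv, ← Real.rpow_natCast, ← Real.rpow_mul hΦ0.le]
    push_cast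
    rw [one_div, inv_mul_cancel₀ (by positivity), Real.rpow_one]
  have h1 := transfer_x ha hτ0 hτ hopt hμ hy (x := 1 - v) (by linarith) (by linarith)
  rw [← hΦ, ← hS, sub_sub_cancel] at h1
  have h2 : Φ * ((1 / v) ^ a * μ) = v * μ := by
    rw [← hvp, pow_succ, one_div, inv_pow]
    have : v ^ a ≠ 0 := by positivity
    field_simp
  rw [h2] at h1
  have h3 : 0 < (1 - v) ^ a := by
    have : 0 < 1 - v := by linarith
    positivity
  have h4 : (1 - v) * μ ≤ (1 / (1 - v)) ^ a * S := by linarith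
  rw [one_div, inv_pow] at h4
  have h5 := mul_le_mul_of_nonneg_left h4 h3.le
  have h6 : (1 - v) ^ a * (((1 - v) ^ a)⁻¹ * S) = S := by
    rw [← mul_assoc, mul_inv_cancel₀ h3.ne', one_mul]
  rw [h6] at h5
  calc (1 - v) ^ (a + 1) * μ = (1 - v) ^ a * ((1 - v) * μ) := by ring
    _ ≤ S := h5

end Pool.Agent.H740R2.Lim
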